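import Pool.Agent.PSG.CubMain

/-!
# PSG-Cub: `β (C - r) y = 0` for `r, y` in a cubic extension of `K`

`K` has characteristic `p ≠ 3` and all irreducible polynomials over `K` have `3`-power degree; `F / K` is cubic,
`F → L`, `C ^ Q = κ C` with `Q = p ^ j ≡ 1` modulo `3`.
-/

namespace Pool.Agent.PSG

open Pool.Agent.PSF

universe u v

variable {ℓ : ℕ} {K L : Type u} [Field K] [Field L] [Algebra K L] {V : Type v} [AddCommGroup V]
variable {F : Type u} [Field F] [Algebra K F] [Algebra F L] [IsScalarTower K F L]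

theorem cub {p : ℕ} [Fact p.Prime] [CharP K p] [CharP L p] (hs : Spec 3 K)
    (hK : ((3 : ℕ) : K) ≠ 0) {S : SymSys ℓ L V} (h : Kills K S) (h3 : Module.finrank K F = 3)
    {j T : ℕ} (hj : 0 < j) (hQ : p ^ j = 3 * T + 1) {C : L} {κ : K}
    (hC : C ^ p ^ j = algebraMap K L κ * C) {r y : F} (hx : C - algebraMap F L r ≠ 0)
    (hy : y ≠ 0) : S.β (C - algebraMap F L r) (algebraMap F L y) = 0 := by
  have hfin : Module.Finite K F := Module.finite_of_finrank_eq_succ h3
  have hF : CharP F p := charP_of_injective_algebraMap (algebraMap K F).injective p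
  set v : F := r ^ p ^ j - κ • r with hv
  by_cases hv0 : v = 0
  · exact gam h hj hC hx hy (lam := 1) (μ := 0) (ν := 0) (Or.inl one_ne_zero) (by
      rw [← hv, hv0]
      simp)
  have hplane : Plane K (p ^ j) v → S.β (C - algebraMap F L r) (algebraMap F L y) = 0 := by
    rintro ⟨a, b, hab, h1, h2, h4⟩
    exact planeKill h hj hC h3 hx hab h1 h2 h4 hy
  obtain ⟨w, hw⟩ := exists_pow_char Nat.prime_three hK hs (F := F) (p := p) (j + j) v
  rw [pow_add, pow_mul] at hw
  set w₁ := w ^ p ^ j with hw₁
  have hw0 : w ≠ 0 := by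
    rintro rfl
    apply hv0
    have h0 : p ^ j ≠ 0 := pow_ne_zero _ (Fact.out : p.Prime).ne_zero
    rw [← hw, hw₁, zero_pow h0, zero_pow h0]
  by_cases ind : ∀ s t : K, s • w + t • w₁ = 0 → s = 0 ∧ t = 0
  · by_cases hmem : v ∈ Submodule.span K {w, w₁}
    · exact hplane ⟨w, w₁, ind, hmem, Submodule.mem_span_pair.2 ⟨0, 1, by simp [hw₁]⟩,
        by rw [hw]; exact hmem⟩
    · have ind3 : ∀ r s t : K, r • w + s • w₁ + t • v = 0 → r = 0 ∧ s = 0 ∧ t = 0 := by
        intro r s t e
        have ht : t = 0 := by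
          by_contra ht
          apply hmem
          refine Submodule.mem_span_pair.2 ⟨-r / t, -s / t, ?_⟩
          have e2 : t • ((-r / t) • w + (-s / t) • w₁) = t • v := by
            rw [smul_add, smul_smul, smul_smul, mul_div_cancel₀ _ ht, mul_div_cancel₀ _ ht, neg_smul,
              neg_smul]
            linear_combination (exp := 1) -e
          exact smul_right_injective F ht e2
        rw [ht, zero_smul, add_zero] at e
        exact ⟨(ind r s e).1, (ind r s e).2, ht⟩
      obtain ⟨f, g, k, hf⟩ := coord3 h3 ind3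
      by_cases hc2 : f (v ^ p ^ j) = 0
      · refine hplane ⟨w₁, v, fun s t e => ?_, ?_, ?_, ?_⟩
        · exact (ind3 0 s t (by rw [zero_smul, zero_add]; exact e)).2
        · exact Submodule.mem_span_pair.2 ⟨0, 1, by simp⟩
        · rw [hw]
          exact Submodule.mem_span_pair.2 ⟨0, 1, by simp⟩
        · refine Submodule.mem_span_pair.2 ⟨g (v ^ p ^ j), k (v ^ p ^ j), ?_⟩
          conv_rhs => rw [hf (v ^ p ^ j), hc2, zero_smul, zero_add]
      · obtain ⟨z, hz0, ⟨a1, a2, a3, hne, e⟩, ⟨b1, b2, b3, hne', e'⟩⟩ := main_case (y := y)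
          (c₀ := k (v ^ p ^ j)) (c₁ := g (v ^ p ^ j)) hs h3 hQ hw₁.symm hw rfl ind3 (by
          conv_lhs => rw [hf (v ^ p ^ j)]
          abel) hc2
        have h5 := gam h hj hC hx hz0 hne e
        have h6 := gam h hj hC hx (mul_ne_zero hy hz0) hne' e'
        rw [map_mul, S.mul_right hx ((map_ne_zero _).2 hy) ((map_ne_zero _).2 hz0), h5,
          add_zero] at h6
        exact h6
  · push Not at ind
    obtain ⟨s, t, e, hst⟩ := ind
    have ht : t ≠ 0 := by
      rintro rfl
      rw [zero_smul, add_zero] at e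
      rcases smul_eq_zero.1 e with h1 | h1
      · exact hst h1 rfl
      · exact hw0 h1
    have hk : w₁ = (-s / t) • w := by
      have e2 : t • w₁ = t • ((-s / t) • w) := by
        rw [smul_smul, mul_div_cancel₀ _ ht, neg_smul]
        linear_combination (exp := 1) e
      exact smul_right_injective F ht e2
    refine hplane (line_case hs h3 hQ hw0 (k := -s / t)
      (m := (-s / t) ^ p ^ j * (-s / t)) hk ?_)
    rw [← hw]
    conv_lhs => rw [hk, _root_.smul_pow, ← hw₁, hk]
    rw [smul_smul]

end Pool.Agent.PSG
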