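import Mathlib

/-!
# PSG-Root: roots of polynomials over fields all of whose irreducible polynomials have `ℓ`-power degree
-/

namespace Pool.Agent.PSG

open Polynomial

universe u

/-- All irreducible polynomials over `K` have `ℓ`-power degree. -/
def Spec (ℓ : ℕ) (K : Type u) [Field K] : Prop :=
  ∀ f : Polynomial K, Irreducible f → ∃ k : ℕ, f.natDegree = ℓ ^ k

theorem exists_root_of_spec {ℓ : ℕ} {K : Type u} [Field K] (h : Spec ℓ K)
    {g : K[X]} (hg : ¬ ℓ ∣ g.natDegree) : ∃ t : K, g.eval t = 0 := by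
  induction hn : g.natDegree using Nat.strong_induction_on generalizing g with
  | _ n ih =>
    have hg0 : g ≠ 0 := by
      rintro rfl
      rw [natDegree_zero] at hg
      exact hg (dvd_zero ℓ)
    have hgd : g.natDegree ≠ 0 := by
      intro h0
      rw [h0] at hg
      exact hg (dvd_zero ℓ)
    have hgu : ¬ IsUnit g := fun hu => hgd (natDegree_eq_zero_of_isUnit hu)
    obtain ⟨q, hq, g', rfl⟩ := WfDvdMonoid.exists_irreducible_factor hgu hg0
    have hq0 : q ≠ 0 := hq.ne_zero
    have hg'0 : g' ≠ 0 := right_ne_zero_of_mul hg0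
    obtain ⟨k, hk⟩ := h q hq
    rcases Nat.eq_zero_or_pos k with rfl | hk0
    · rw [pow_zero] at hk
      obtain ⟨t, ht⟩ := exists_root_of_degree_eq_one (degree_eq_iff_natDegree_eq_of_pos one_pos |>.2 hk)
      exact ⟨t, by rw [eval_mul, ht, zero_mul]⟩
    · rw [natDegree_mul hq0 hg'0] at hg hn
      have hℓq : ℓ ∣ q.natDegree := by
        rw [hk]
        exact dvd_pow_self ℓ hk0.ne'
      have hg' : ¬ ℓ ∣ g'.natDegree := fun h1 => hg (dvd_add hℓq h1)
      have hq1 : q.natDegree ≠ 0 := by
        intro h0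
        exact hq.not_isUnit (isUnit_iff_degree_eq_zero.2 (by
          rw [degree_eq_natDegree hq0, h0, Nat.cast_zero]))
      obtain ⟨t, ht⟩ := ih g'.natDegree (by omega) hg' rfl
      exact ⟨t, by rw [eval_mul, ht, mul_zero]⟩

theorem perfect_of_spec {ℓ : ℕ} (hℓ : ℓ.Prime) {K : Type u} [Field K] (hK : (ℓ : K) ≠ 0)
    (h : Spec ℓ K) : PerfectField K := by
  obtain ⟨p, hp⟩ := CharP.exists K
  rcases CharP.char_is_prime_or_zero K p with hp' | hp'
  · refine ⟨fun {f} hf => ?_⟩
    rcases Polynomial.separable_or p hf with hs | ⟨-, g, -, hg⟩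
    · exact hs
    · exfalso
      obtain ⟨k, hk⟩ := h f hf
      rw [← hg, Polynomial.natDegree_expand] at hk
      have h1 : p ∣ ℓ ^ k := hk ▸ dvd_mul_left p _
      have h2 : p = ℓ := (Nat.prime_dvd_prime_iff_eq hp' hℓ).1 (hp'.dvd_of_dvd_pow h1)
      exact hK (h2 ▸ CharP.cast_eq_zero K p)
  · subst hp'
    have := CharP.charP_to_charZero K
    infer_instance

/-- Every element of an algebraic extension of `K` is a `Q`-th power, `Q = p ^ j`. -/
theorem exists_pow_char {ℓ p : ℕ} (hℓ : ℓ.Prime) {K : Type u} [Field K] (hK : (ℓ : K) ≠ 0)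
    (h : Spec ℓ K) [Fact p.Prime] [CharP K p] {F : Type u} [Field F] [Algebra K F]
    [Algebra.IsAlgebraic K F] (j : ℕ) (x : F) : ∃ y : F, y ^ p ^ j = x := by
  have h1 := perfect_of_spec hℓ hK h
  have h2 : PerfectField F := Algebra.IsAlgebraic.perfectField (K := K)
  have h3 : CharP F p := charP_of_injective_algebraMap (algebraMap K F).injective p
  have h4 : ExpChar F p := ExpChar.prime Fact.out
  have h5 : PerfectRing F p := PerfectField.toPerfectRing p
  exact ⟨(iterateFrobeniusEquiv F p j).symm x, by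
    rw [← iterateFrobeniusEquiv_def (R := F) (p := p) (n := j), RingEquiv.apply_symm_apply]⟩

end Pool.Agent.PSG
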