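import Pool.Agent.PSG.Gam
import Pool.Agent.PSG.Root

/-!
# PSG-CubAlg: cubic extensions of fields all of whose irreducible polynomials have `3`-power degree

`F / K` is cubic, `Q = p ^ j ≡ 1` modulo `3`, `v ≠ 0` and `y` in `F`.  Either `v` lies in a plane stable under
`z ↦ z ^ Q`, or there is `z ≠ 0` such that `v, z, z ^ Q` are dependent and `v, y z, (y z) ^ Q` are dependent.
-/

namespace Pool.Agent.PSG

open Polynomial

universe u

variable {K : Type u} [Field K] {F : Type u} [Field F] [Algebra K F]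

/-- `v, z, z ^ Q` are linearly dependent. -/
def Dep (K : Type u) [Field K] {F : Type u} [Field F] [Algebra K F] (Q : ℕ) (v z : F) : Prop :=
  ∃ lam μ ν : K, (lam ≠ 0 ∨ μ ≠ 0 ∨ ν ≠ 0) ∧ lam • v + μ • z + ν • z ^ Q = 0

/-- A plane through `v`, stable under `z ↦ z ^ Q`. -/
def Plane (K : Type u) [Field K] {F : Type u} [Field F] [Algebra K F] (Q : ℕ) (v : F) : Prop :=
  ∃ a b : F, (∀ s t : K, s • a + t • b = 0 → s = 0 ∧ t = 0) ∧ v ∈ Submodule.span K {a, b} ∧
    a ^ Q ∈ Submodule.span K {a, b} ∧ b ^ Q ∈ Submodule.span K {a, b}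

theorem coord3 (h3 : Module.finrank K F = 3) {a b c : F}
    (h : ∀ r s t : K, r • a + s • b + t • c = 0 → r = 0 ∧ s = 0 ∧ t = 0) :
    ∃ f g k : F →ₗ[K] K, ∀ x : F, x = f x • a + g x • b + k x • c := by
  have hli : LinearIndependent K ![a, b, c] := by
    rw [Fintype.linearIndependent_iff]
    intro g hg i
    rw [Fin.sum_univ_three] at hg
    obtain ⟨h0, h1, h2⟩ := h _ _ _ hg
    fin_cases i
    · exact h0
    · exact h1
    · exact h2
  have hcard : Fintype.card (Fin 3) = Module.finrank K F := by rw [h3, Fintype.card_fin]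
  set B := basisOfLinearIndependentOfCardEqFinrank hli hcard with hB
  refine ⟨B.coord 0, B.coord 1, B.coord 2, fun x => ?_⟩
  have h4 := B.sum_repr x
  rw [Fin.sum_univ_three] at h4
  have e0 : B 0 = a := by rw [hB, coe_basisOfLinearIndependentOfCardEqFinrank]; rfl
  have e1 : B 1 = b := by rw [hB, coe_basisOfLinearIndependentOfCardEqFinrank]; rfl
  have e2 : B 2 = c := by rw [hB, coe_basisOfLinearIndependentOfCardEqFinrank]; rfl
  rw [e0, e1, e2] at h4
  exact h4.symm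

theorem compl (h3 : Module.finrank K F = 3) {w : F} (hw : w ≠ 0) :
    ∃ a b : F, ∀ r s t : K, r • w + s • a + t • b = 0 → r = 0 ∧ s = 0 ∧ t = 0 := by
  have l1 : LinearIndependent K ![w] := by
    rw [Fintype.linearIndependent_iff]
    intro g hg i
    fin_cases i
    rw [Fin.sum_univ_one] at hg
    rcases smul_eq_zero.1 hg with h1 | h1
    · exact h1
    · exact absurd h1 hw
  obtain ⟨a, l2⟩ := exists_linearIndependent_cons_of_lt_finrank l1 (by omega)
  obtain ⟨b, l3⟩ := exists_linearIndependent_cons_of_lt_finrank l2 (by omega)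
  refine ⟨a, b, fun r s t h => ?_⟩
  rw [Fintype.linearIndependent_iff] at l3
  have h4 := l3 ![t, s, r] (by
    simp [Fin.sum_univ_succ]
    linear_combination h)
  exact ⟨h4 2, h4 1, h4 0⟩

/-- the case of a stable line -/
theorem line_case {p : ℕ} [Fact p.Prime] [CharP F p] (hs : Spec 3 K)
    (h3 : Module.finrank K F = 3) {j T : ℕ} (hQ : p ^ j = 3 * T + 1) {v w : F} {k m : K}
    (hw : w ≠ 0) (hk : w ^ p ^ j = k • w) (hv : v = m • w) : Plane K (p ^ j) v := by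
  obtain ⟨a, b, hi⟩ := compl h3 hw
  obtain ⟨f, g, e, hc⟩ := coord3 h3 hi
  set α₀ := f (a ^ p ^ j)
  set α₁ := g (a ^ p ^ j) with hα₁
  set α₂ := e (a ^ p ^ j) with hα₂
  set β₀ := f (b ^ p ^ j)
  set β₁ := g (b ^ p ^ j) with hβ₁
  set β₂ := e (b ^ p ^ j) with hβ₂
  have ha : a ^ p ^ j = α₀ • w + α₁ • a + α₂ • b := hc _
  have hb : b ^ p ^ j = β₀ • w + β₁ • a + β₂ • b := hc _
  by_cases h1 : β₁ = 0
  · refine ⟨w, b, fun s t h => ?_, ?_, ?_, ?_⟩
    · obtain ⟨i1, -, i3⟩ := hi s 0 t (by rw [zero_smul, add_zero]; exact h)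
      exact ⟨i1, i3⟩
    · exact Submodule.mem_span_pair.2 ⟨m, 0, by rw [zero_smul, add_zero, hv]⟩
    · exact Submodule.mem_span_pair.2 ⟨k, 0, by rw [zero_smul, add_zero, hk]⟩
    · exact Submodule.mem_span_pair.2 ⟨β₀, β₂, by rw [hb, h1, zero_smul, add_zero]⟩
  · set P : K[X] := C β₁ * X ^ (p ^ j + 1) - C β₂ * X ^ p ^ j + C α₁ * X - C α₂ with hP
    have hpj : 1 ≤ p ^ j := Nat.one_le_pow _ _ (Fact.out : p.Prime).pos
    have hd : P.natDegree = p ^ j + 1 := by
      have hPP : P = C β₁ * X ^ (p ^ j + 1) + (- (C β₂ * X ^ p ^ j) + C α₁ * X - C α₂) := by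
        rw [hP]
        ring
      have d1 : (C β₁ * X ^ (p ^ j + 1) : K[X]).natDegree = p ^ j + 1 :=
        natDegree_C_mul_X_pow _ _ h1
      have d2 : (- (C β₂ * X ^ p ^ j) + C α₁ * X - C α₂ : K[X]).natDegree ≤ p ^ j := by
        refine (natDegree_sub_le _ _).trans (max_le ?_ ?_)
        · refine (natDegree_add_le _ _).trans (max_le ?_ ?_)
          · rw [natDegree_neg]
            exact natDegree_C_mul_X_pow_le _ _
          · exact (natDegree_C_mul_X_pow_le _ 1 |>.trans hpj |> fun h => by simpa using h)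
        · rw [natDegree_C]
          exact Nat.zero_le _
      rw [hPP, natDegree_add_eq_left_of_natDegree_lt (by rw [d1]; omega), d1]
    obtain ⟨t, ht⟩ := exists_root_of_spec hs (g := P) (by rw [hd]; omega)
    have ht' : α₂ + t ^ p ^ j * β₂ = t * (α₁ + t ^ p ^ j * β₁) := by
      rw [hP] at ht
      simp only [eval_add, eval_sub, eval_mul, eval_C, eval_X, eval_pow] at ht
      rw [pow_succ] at ht
      linear_combination -ht
    refine ⟨w, a + t • b, fun s r h => ?_, ?_, ?_, ?_⟩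
    · obtain ⟨i1, i2, -⟩ := hi s r (r * t) (by
        rw [← h, smul_add, smul_smul, add_assoc])
      exact ⟨i1, i2⟩
    · exact Submodule.mem_span_pair.2 ⟨m, 0, by rw [zero_smul, add_zero, hv]⟩
    · exact Submodule.mem_span_pair.2 ⟨k, 0, by rw [zero_smul, add_zero, hk]⟩
    · refine Submodule.mem_span_pair.2 ⟨α₀ + t ^ p ^ j * β₀, α₁ + t ^ p ^ j * β₁, ?_⟩
      rw [add_pow_char_pow, _root_.smul_pow, ha, hb]
      have e1 : (α₁ + t ^ p ^ j * β₁) • (a + t • b) = (α₁ + t ^ p ^ j * β₁) • a +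
          (α₂ + t ^ p ^ j * β₂) • b := by
        rw [smul_add, smul_smul, ht', mul_comm t]
      rw [e1]
      module

/-- vanishing of a minor gives a relation -/
theorem minor_aux {a b v P R : F} {p₀ p₁ p₂ r₀ r₁ r₂ : K} (hP : P = p₀ • a + p₁ • b + p₂ • v)
    (hR : R = r₀ • a + r₁ • b + r₂ • v) (h : p₀ * r₁ - p₁ * r₀ = 0) :
    ∃ lam μ ν : K, (lam ≠ 0 ∨ μ ≠ 0 ∨ ν ≠ 0) ∧ lam • v + μ • P + ν • R = 0 := by
  by_cases h0 : p₀ = 0
  · by_cases h1 : p₁ = 0
    · refine ⟨-p₂, 1, 0, Or.inr (Or.inl one_ne_zero), ?_⟩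
      rw [hP, h0, h1]
      module
    · refine ⟨-(-r₁ * p₂ + p₁ * r₂), -r₁, p₁, Or.inr (Or.inr h1), ?_⟩
      have e1 : -r₁ * p₀ + p₁ * r₀ = 0 := by linear_combination -h
      rw [hP, hR]
      have key : (-(-r₁ * p₂ + p₁ * r₂)) • v + -r₁ • (p₀ • a + p₁ • b + p₂ • v) +
          p₁ • (r₀ • a + r₁ • b + r₂ • v) = (-r₁ * p₀ + p₁ * r₀) • a := by module
      rw [key, e1, zero_smul]
  · refine ⟨-(-r₀ * p₂ + p₀ * r₂), -r₀, p₀, Or.inr (Or.inr h0), ?_⟩
    have e1 : -r₀ * p₁ + p₀ * r₁ = 0 := by linear_combination h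
    rw [hP, hR]
    have key : (-(-r₀ * p₂ + p₀ * r₂)) • v + -r₀ • (p₀ • a + p₁ • b + p₂ • v) +
        p₀ • (r₀ • a + r₁ • b + r₂ • v) = (-r₀ * p₁ + p₀ * r₁) • b := by module
    rw [key, e1, zero_smul]

theorem minor {a b v P R : F} {f g k : F →ₗ[K] K} (hc : ∀ x : F, x = f x • a + g x • b + k x • v)
    (h : f P * g R - g P * f R = 0) :
    ∃ lam μ ν : K, (lam ≠ 0 ∨ μ ≠ 0 ∨ ν ≠ 0) ∧ lam • v + μ • P + ν • R = 0 :=
  minor_aux (hc P) (hc R) h

end Pool.Agent.PSG
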