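import Pool.Agent.PSG.CubAlg

/-!
# PSG-CubMain: the main case

`w, w₁ = w ^ Q, w₂ = w₁ ^ Q` is a basis of the cubic extension `F / K` and `w₂ ^ Q = c₀ w₂ + c₁ w₁ + c₂ w`, `c₂ ≠ 0`.
For `t ∈ K` put `A = t ^ (Q + 1) + c₁ t` and `z = c₂ w₂ + A w₁ + c₂ t w`.  Then
`c₂ ^ Q z - t z ^ Q ∈ K w₂`.  The condition that `w₂, y z, (y z) ^ Q` are dependent is an equation of degree
`(Q + 1) ^ 2` for `t` if its leading coefficient is not zero; otherwise `z = w₁` has both properties.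
-/

namespace Pool.Agent.PSG

open Polynomial

universe u

variable {K : Type u} [Field K] {F : Type u} [Field F] [Algebra K F]

theorem degA {Q : ℕ} (hQ : 1 ≤ Q) (c : K) :
    (X ^ (Q + 1) + C c * X : K[X]).natDegree = Q + 1 ∧ (X ^ (Q + 1) + C c * X : K[X]).Monic := by
  have h1 : (C c * X : K[X]).degree < ((Q + 1 : ℕ) : WithBot ℕ) := by
    refine lt_of_le_of_lt (degree_C_mul_X_le c) ?_
    exact_mod_cast (by omega : 1 < Q + 1)
  have h2 : (X ^ (Q + 1) + C c * X : K[X]).Monic := monic_X_pow_add h1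
  refine ⟨?_, h2⟩
  have h3 : (C c * X : K[X]).natDegree ≤ 1 := natDegree_C_mul_X_pow_le c 1 |> fun h => by simpa using h
  rw [natDegree_add_eq_left_of_natDegree_lt, natDegree_X_pow]
  rw [natDegree_X_pow]
  omega

/-- the degree of the equation -/
theorem degG {Q : ℕ} (hQ : 1 ≤ Q) (c a₀ b₀ g₀ a₁ b₁ g₁ d₀ e₀ z₀ d₁ e₁ z₁ : K)
    (h : b₀ * z₁ - b₁ * z₀ ≠ 0) :
    ((C a₀ + C b₀ * (X ^ (Q + 1) + C c * X) + C g₀ * X) *
        (C d₁ + C e₁ * X ^ Q + C z₁ * (X ^ (Q + 1) + C c * X) ^ Q) -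
      (C a₁ + C b₁ * (X ^ (Q + 1) + C c * X) + C g₁ * X) *
        (C d₀ + C e₀ * X ^ Q + C z₀ * (X ^ (Q + 1) + C c * X) ^ Q) : K[X]).natDegree =
      (Q + 1) * (Q + 1) := by
  obtain ⟨hA, hAm⟩ := degA hQ c
  set A : K[X] := X ^ (Q + 1) + C c * X with hAdef
  have hAn : ∀ n : ℕ, (A ^ n).natDegree = n * (Q + 1) := fun n => by
    rw [natDegree_pow, hA]
  have e : (C a₀ + C b₀ * A + C g₀ * X) * (C d₁ + C e₁ * X ^ Q + C z₁ * A ^ Q) -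
      (C a₁ + C b₁ * A + C g₁ * X) * (C d₀ + C e₀ * X ^ Q + C z₀ * A ^ Q) =
      C (b₀ * z₁ - b₁ * z₀) * A ^ (Q + 1) +
      (C (a₀ * z₁ - a₁ * z₀) * A ^ Q + C (g₀ * z₁ - g₁ * z₀) * (X * A ^ Q) +
        C (b₀ * d₁ - b₁ * d₀) * A + C (b₀ * e₁ - b₁ * e₀) * (A * X ^ Q) +
        C (a₀ * d₁ - a₁ * d₀) + C (a₀ * e₁ - a₁ * e₀) * X ^ Q + C (g₀ * d₁ - g₁ * d₀) * X +
        C (g₀ * e₁ - g₁ * e₀) * (X * X ^ Q)) := by
    simp only [C_sub, C_mul]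
    ring
  rw [e]
  have hC : ∀ (r : K) (P : K[X]) (n : ℕ), P.natDegree ≤ n → (C r * P).natDegree ≤ n :=
    fun r P n hP => (natDegree_C_mul_le r P).trans hP
  have hadd : ∀ (P R : K[X]) (n : ℕ), P.natDegree ≤ n → R.natDegree ≤ n →
      (P + R).natDegree ≤ n := fun P R n h1 h2 =>
    (natDegree_add_le _ _).trans (max_le h1 h2)
  have hlead : (C (b₀ * z₁ - b₁ * z₀) * A ^ (Q + 1)).natDegree = (Q + 1) * (Q + 1) := by
    rw [natDegree_C_mul h, hAn]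
  have hX : (X : K[X]).natDegree ≤ 1 := natDegree_X_le
  have q1 : 1 ≤ (Q + 1) * Q + 1 := by omega
  have q2 : Q + 1 ≤ (Q + 1) * Q + 1 := by nlinarith
  have q3 : Q ≤ (Q + 1) * Q + 1 := by nlinarith
  have q4 : 2 * Q + 1 ≤ (Q + 1) * Q + 1 := by nlinarith
  have m1 : (X * A ^ Q : K[X]).natDegree ≤ (Q + 1) * Q + 1 := by
    refine natDegree_mul_le.trans ?_
    rw [hAn]
    have : (Q + 1) * Q = Q * (Q + 1) := mul_comm _ _
    omega
  have m2 : (A * X ^ Q : K[X]).natDegree ≤ (Q + 1) * Q + 1 := by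
    refine natDegree_mul_le.trans ?_
    rw [hA, natDegree_X_pow]
    omega
  have m3 : (X * X ^ Q : K[X]).natDegree ≤ (Q + 1) * Q + 1 := by
    refine natDegree_mul_le.trans ?_
    rw [natDegree_X_pow]
    omega
  have hrest : (C (a₀ * z₁ - a₁ * z₀) * A ^ Q + C (g₀ * z₁ - g₁ * z₀) * (X * A ^ Q) +
        C (b₀ * d₁ - b₁ * d₀) * A + C (b₀ * e₁ - b₁ * e₀) * (A * X ^ Q) +
        C (a₀ * d₁ - a₁ * d₀) + C (a₀ * e₁ - a₁ * e₀) * X ^ Q + C (g₀ * d₁ - g₁ * d₀) * X +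
        C (g₀ * e₁ - g₁ * e₀) * (X * X ^ Q) : K[X]).natDegree ≤ (Q + 1) * Q + 1 := by
    refine hadd _ _ _ (hadd _ _ _ (hadd _ _ _ (hadd _ _ _ (hadd _ _ _ (hadd _ _ _
      (hadd _ _ _ ?_ ?_) ?_) ?_) ?_) ?_) ?_) ?_
    · refine hC _ _ _ ?_
      rw [hAn, mul_comm]
      omega
    · exact hC _ _ _ m1
    · exact hC _ _ _ (by rw [hA]; exact q2)
    · exact hC _ _ _ m2
    · rw [natDegree_C]
      exact Nat.zero_le _
    · exact hC _ _ _ (by rw [natDegree_X_pow]; exact q3)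
    · exact hC _ _ _ (hX.trans q1)
    · exact hC _ _ _ m3
  rw [natDegree_add_eq_left_of_natDegree_lt, hlead]
  rw [hlead]
  refine lt_of_le_of_lt hrest ?_
  nlinarith

theorem main_case {p : ℕ} [Fact p.Prime] [CharP F p] (hs : Spec 3 K)
    (h3 : Module.finrank K F = 3) {j T : ℕ} (hQ : p ^ j = 3 * T + 1) {w w₁ w₂ w₃ y : F}
    {c₀ c₁ c₂ : K}
    (e1 : w ^ p ^ j = w₁) (e2 : w₁ ^ p ^ j = w₂) (e3 : w₂ ^ p ^ j = w₃)
    (hi : ∀ r s t : K, r • w + s • w₁ + t • w₂ = 0 → r = 0 ∧ s = 0 ∧ t = 0)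
    (hc : w₃ = c₀ • w₂ + c₁ • w₁ + c₂ • w) (hc2 : c₂ ≠ 0) :
    ∃ z : F, z ≠ 0 ∧ Dep K (p ^ j) w₂ z ∧ Dep K (p ^ j) w₂ (y * z) := by
  obtain ⟨f, g, k, hf⟩ := coord3 h3 hi
  set Q := p ^ j with hQdef
  have hQ1 : 1 ≤ Q := by rw [hQ]; omega
  by_cases hγ : f (y * w₁) * g (y ^ Q * w₂) - g (y * w₁) * f (y ^ Q * w₂) = 0
  · refine ⟨w₁, ?_, ⟨1, 0, -1, Or.inl one_ne_zero, ?_⟩, ?_⟩
    · rintro rfl
      have := (hi 0 1 0 (by simp)).2.1
      exact one_ne_zero this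
    · rw [e2]
      simp
    · have h5 : (y * w₁) ^ Q = y ^ Q * w₂ := by rw [mul_pow, e2]
      unfold Dep
      rw [h5]
      exact minor hf hγ
  · have hdeg := degG hQ1 c₁ (c₂ * f (y * w₂)) (f (y * w₁)) (c₂ * f (y * w))
      (c₂ * g (y * w₂)) (g (y * w₁)) (c₂ * g (y * w)) (c₂ ^ Q * f (y ^ Q * w₃))
      (c₂ ^ Q * f (y ^ Q * w₁)) (f (y ^ Q * w₂)) (c₂ ^ Q * g (y ^ Q * w₃))
      (c₂ ^ Q * g (y ^ Q * w₁)) (g (y ^ Q * w₂)) hγ
    obtain ⟨t, ht⟩ := exists_root_of_spec hs (by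
      rw [hdeg, hQ, Nat.Prime.dvd_mul Nat.prime_three]
      omega)
    simp only [eval_sub, eval_mul, eval_add, eval_C, eval_X, eval_pow] at ht
    set A : K := t ^ (Q + 1) + c₁ * t with hA
    set z : F := c₂ • w₂ + A • w₁ + (c₂ * t) • w with hz
    have hz0 : z ≠ 0 := by
      intro h0
      exact hc2 (hi (c₂ * t) A c₂ (by rw [← h0, hz]; abel)).2.2
    have hzQ : z ^ Q = c₂ ^ Q • w₃ + A ^ Q • w₂ + (c₂ * t) ^ Q • w₁ := by
      rw [hz, hQdef, add_pow_char_pow, add_pow_char_pow, _root_.smul_pow, _root_.smul_pow,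
        _root_.smul_pow, e1, e2, e3]
    refine ⟨z, hz0, ?_, ?_⟩
    · refine ⟨-(c₂ ^ Q * c₂ - t * (c₂ ^ Q * c₀ + A ^ Q)), c₂ ^ Q, -t, Or.inr (Or.inl (pow_ne_zero _ hc2)), ?_⟩
      rw [hzQ, hc, hz]
      have hA' : A = t * t ^ Q + c₁ * t := by rw [hA, pow_succ]; ring
      rw [hA', mul_pow c₂ t Q]
      module
    · unfold Dep
      refine minor hf ?_
      have i1 : y * z = c₂ • (y * w₂) + A • (y * w₁) + (c₂ * t) • (y * w) := by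
        rw [hz]
        simp only [mul_add, mul_smul_comm]
      have i2 : (y * z) ^ Q = c₂ ^ Q • (y ^ Q * w₃) + A ^ Q • (y ^ Q * w₂) +
          (c₂ * t) ^ Q • (y ^ Q * w₁) := by
        rw [mul_pow, hzQ]
        simp only [mul_add, mul_smul_comm]
      rw [i2, i1]
      simp only [map_add, map_smul, smul_eq_mul]
      rw [mul_pow c₂ t Q]
      linear_combination ht

end Pool.Agent.PSG
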