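import Pool.Agent.PSG.FillA
import Pool.Agent.PSG.Pf.All

/-!
# PSG-Fill: a character of `Fˣ / Kˣ` which vanishes on a rational curve of degree prime to `ℓ` is zero

PLAN.  `z ≠ 0` as `ℓ ∤ z.natDegree`.  `D := z.natDegree`, `ζ := z.leadingCoeff`, `M` from `exists_comp`:
`det (ρ - M) = charpoly.eval ρ = ζ⁻¹ z(ρ)` (`Matrix.eval_charpoly` / `Matrix.det_eq ..`).
1. Claim: for every `P : K[X]`, `P ≠ 0`, `P.natDegree < ℓ`: `d(P) := (aeval M (P.map (algebraMap K F))).det` is not `0` and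
   `χ (d(P)) = 0`.  Induction on `P.natDegree`: if it is `0`, `P = C c` and `d(P) = c ^ D` with `c ^ D ∈ K`.
   Otherwise `0 < P.natDegree < ℓ`, so `ℓ ∤ P.natDegree` and `exists_root_of_spec` gives a root `ρ`,
   `P = (X - C ρ) * P'` (`mul_divByMonic_eq_iff_isRoot`), `d(P) = det (M - ρ) * d(P')` and
   `det (M - ρ) = (-1) ^ D * ζ⁻¹ * z(ρ)`; `χ` of it is `0` (`(-1) ^ D ∈ K`; `χ ζ⁻¹ = -χ ζ = 0` from
   `χ (ζ * ζ⁻¹) = χ 1 = 0`).
2. Write `ℓ = n + 1`.  `det_form M (n + 1)` and a `K`-linear map `Φ : F → (Fin n → K)` with kernel `K y`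
   (`F ⧸ span {y}` has dimension `n`); `coord_form` for `lam i := proj i ∘ Φ` gives forms `W i` of degree `D`,
   `i : Fin n`.  `spec_zero`: `a : Fin (n + 1) → K`, `a ≠ 0`, `W i (a) = 0` for all `i`.  So
   `Z(a) = d(P_a)`, `P_a := ∑ k, C (a k) * X ^ k ≠ 0` of degree `< ℓ`, lies in the kernel of `Φ`: `Z(a) = c y`,
   `c ≠ 0` as `Z(a) ≠ 0`.  `0 = χ (Z(a)) = χ c + χ y = χ y`.
-/

namespace Pool.Agent.PSG

open Polynomial

universe u v

private theorem fill_claim {ℓ : ℕ} {K F : Type u} [Field K] [Field F] [Algebra K F]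
    (hs : Spec ℓ K) {V : Type v}
    [AddCommGroup V] (χ : F → V) (hχ : ∀ x y : F, x ≠ 0 → y ≠ 0 → χ (x * y) = χ x + χ y)
    (hχK : ∀ c : K, c ≠ 0 → χ (algebraMap K F c) = 0) (z : F[X]) (hz0 : z ≠ 0)
    (hz : ∀ ρ : K, z.eval (algebraMap K F ρ) ≠ 0)
    (hz' : ∀ ρ : K, χ (z.eval (algebraMap K F ρ)) = 0) (hl : χ z.leadingCoeff = 0)
    (M : Matrix (Fin z.natDegree) (Fin z.natDegree) F) (hM : M.charpoly = C z.leadingCoeff⁻¹ * z) :
    ∀ (n : ℕ) (P : K[X]), P.natDegree = n → P ≠ 0 → n < ℓ →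
      (aeval M P).det ≠ 0 ∧ χ (aeval M P).det = 0 := by
  have hζ : z.leadingCoeff ≠ 0 := leadingCoeff_ne_zero.2 hz0
  have h1 : χ 1 = 0 := by
    have := hχK 1 one_ne_zero
    rwa [map_one] at this
  have hζi : χ z.leadingCoeff⁻¹ = 0 := by
    have h2 := hχ z.leadingCoeff z.leadingCoeff⁻¹ hζ (inv_ne_zero hζ)
    rw [mul_inv_cancel₀ hζ, h1, hl, zero_add] at h2
    exact h2.symm
  intro n
  induction n with
  | zero =>
    intro P hP hP0 _
    rw [eq_C_of_natDegree_eq_zero hP] at hP0 ⊢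
    have hc : P.coeff 0 ≠ 0 := fun h => hP0 (by rw [h, C_0])
    have h2 : (aeval M (C (P.coeff 0))).det = algebraMap K F ((P.coeff 0) ^ z.natDegree) := by
      rw [aeval_C, map_pow, Algebra.algebraMap_eq_smul_one, ← algebraMap_smul F, Matrix.det_smul, Matrix.det_one, mul_one,
        Fintype.card_fin]
    rw [h2]
    refine ⟨?_, hχK _ (pow_ne_zero _ hc)⟩
    rw [Ne, map_eq_zero_iff _ (algebraMap K F).injective]
    exact pow_ne_zero _ hc
  | succ n ih =>
    intro P hP hP0 hn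
    obtain ⟨ρ, hρ⟩ := exists_root_of_spec hs (g := P) (by
      rw [hP]
      intro hd
      exact absurd (Nat.le_of_dvd (Nat.succ_pos n) hd) (by omega))
    obtain ⟨P', rfl⟩ := dvd_iff_isRoot.2 hρ
    have hP'0 : P' ≠ 0 := right_ne_zero_of_mul hP0
    have hd : P'.natDegree = n := by
      rw [natDegree_mul (X_sub_C_ne_zero ρ) hP'0, natDegree_X_sub_C] at hP
      omega
    obtain ⟨h3, h4⟩ := ih P' hd hP'0 (by omega)
    have h5 : (aeval M (X - C ρ)).det = algebraMap K F ((-1) ^ z.natDegree) * (z.leadingCoeff⁻¹ * z.eval (algebraMap K F ρ)) := by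
      have h6 := Matrix.eval_charpoly M (algebraMap K F ρ)
      rw [hM, eval_mul, eval_C] at h6
      rw [h6, map_sub, aeval_X, aeval_C, ← neg_sub, Matrix.det_neg, Fintype.card_fin, map_pow, map_neg, map_one]
      rfl
    have h7 : (-1 : K) ^ z.natDegree ≠ 0 := pow_ne_zero _ (neg_ne_zero.2 one_ne_zero)
    have h7' : algebraMap K F ((-1) ^ z.natDegree) ≠ 0 := by
      rw [Ne, map_eq_zero_iff _ (algebraMap K F).injective]
      exact h7
    have h8 : (aeval M (X - C ρ)).det ≠ 0 := by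
      rw [h5]
      exact mul_ne_zero h7' (mul_ne_zero (inv_ne_zero hζ) (hz ρ))
    have h9 : χ (aeval M (X - C ρ)).det = 0 := by
      rw [h5, hχ _ _ h7' (mul_ne_zero (inv_ne_zero hζ) (hz ρ)), hχ _ _ (inv_ne_zero hζ) (hz ρ), hχK _ h7, hζi, hz' ρ, add_zero, add_zero]
    rw [map_mul, Matrix.det_mul]
    exact ⟨mul_ne_zero h8 h3, by rw [hχ _ _ h8 h3, h9, h4, add_zero]⟩

theorem fill {ℓ : ℕ} (hℓ : ℓ.Prime) {K F : Type u} [Field K] [Field F] [Algebra K F]
    (hK : (ℓ : K) ≠ 0) (hs : Spec ℓ K) (hF : Module.finrank K F = ℓ) {V : Type v}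
    [AddCommGroup V] (χ : F → V) (hχ : ∀ x y : F, x ≠ 0 → y ≠ 0 → χ (x * y) = χ x + χ y)
    (hχK : ∀ c : K, c ≠ 0 → χ (algebraMap K F c) = 0) (z : F[X]) (hD : ¬ ℓ ∣ z.natDegree)
    (hz : ∀ ρ : K, z.eval (algebraMap K F ρ) ≠ 0)
    (hz' : ∀ ρ : K, χ (z.eval (algebraMap K F ρ)) = 0) (hl : χ z.leadingCoeff = 0) {y : F}
    (hy : y ≠ 0) : χ y = 0 := by
  have hz0 : z ≠ 0 := by
    rintro rfl
    rw [natDegree_zero] at hD
    exact hD (dvd_zero ℓ)
  obtain ⟨M, hM⟩ := exists_comp z hz0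
  have hcl := fill_claim hs χ hχ hχK z hz0 hz hz' hl M hM
  obtain ⟨n, hn⟩ : ∃ n, ℓ = n + 1 := ⟨ℓ - 1, by have := hℓ.pos; omega⟩
  have hfd : FiniteDimensional K F := Module.finite_of_finrank_pos (by rw [hF]; exact hℓ.pos)
  have hq : Module.finrank K (F ⧸ Submodule.span K {y}) = n := by
    have h1 := Submodule.finrank_quotient_add_finrank (Submodule.span K {y})
    rw [finrank_span_singleton hy, hF, hn] at h1
    omega
  let b := Module.finBasisOfFinrankEq K (F ⧸ Submodule.span K {y}) hq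
  let Φ : F →ₗ[K] (Fin n → K) := b.equivFun.toLinearMap ∘ₗ (Submodule.span K {y}).mkQ
  obtain ⟨Z, hZ, hZe⟩ := det_form M (n + 1)
  have hW : ∀ i : Fin n, ∃ W : MvPolynomial (Fin (n + 1)) K, W.IsHomogeneous z.natDegree ∧
      ∀ a : Fin (n + 1) → K, MvPolynomial.eval a W =
        Φ (MvPolynomial.eval (fun i => algebraMap K F (a i)) Z) i :=
    fun i => coord_form ((LinearMap.proj i).comp Φ) Z hZ
  choose W hWh hWe using hW
  obtain ⟨a, ha0, ha⟩ := spec_zero hℓ hD hK hs W hWh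
  have hΦ : Φ (MvPolynomial.eval (fun i => algebraMap K F (a i)) Z) = 0 := by
    funext i
    rw [← hWe i a, ha i]
    rfl
  have hmem : MvPolynomial.eval (fun i => algebraMap K F (a i)) Z ∈ Submodule.span K {y} := by
    have h1 : b.equivFun ((Submodule.span K {y}).mkQ (MvPolynomial.eval (fun i => algebraMap K F (a i)) Z)) = 0 := hΦ
    have h2 := (LinearEquiv.map_eq_zero_iff b.equivFun).1 h1
    exact (Submodule.Quotient.mk_eq_zero _).1 h2
  obtain ⟨c, hc⟩ := Submodule.mem_span_singleton.1 hmem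
  obtain ⟨P, hPd⟩ : ∃ P : K[X], P = ∑ k : Fin (n + 1), C (a k) * X ^ (k : ℕ) := ⟨_, rfl⟩
  have hPc : ∀ k : Fin (n + 1), P.coeff k = a k := by
    intro k
    rw [hPd, finsetSum_coeff, Finset.sum_eq_single k]
    · rw [coeff_C_mul, coeff_X_pow, if_pos rfl, mul_one]
    · intro k' _ hk'
      rw [coeff_C_mul, coeff_X_pow, if_neg (fun h => hk' (Fin.ext h.symm)), mul_zero]
    · intro h
      exact absurd (Finset.mem_univ k) h
  have hP0 : P ≠ 0 := by
    intro h
    apply ha0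
    funext k
    rw [← hPc k, h, coeff_zero]
    rfl
  have hPn : P.natDegree < ℓ := by
    have h1 : P.natDegree ≤ n := by
      rw [hPd]
      refine natDegree_sum_le_of_forall_le _ _ fun k _ => ?_
      refine le_trans (natDegree_C_mul_X_pow_le _ _) ?_
      have := k.isLt
      omega
    omega
  have hdet : MvPolynomial.eval (fun i => algebraMap K F (a i)) Z = (aeval M P).det := by
    rw [hZe, hPd, map_sum]
    congr 1
    refine Finset.sum_congr rfl fun k _ => ?_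
    rw [map_mul, map_pow, aeval_X, aeval_C, algebraMap_smul, ← Algebra.smul_def]
  obtain ⟨h3, h4⟩ := hcl _ P rfl hP0 hPn
  rw [← hdet, ← hc] at h3 h4
  have hc0 : c ≠ 0 := by
    rintro rfl
    rw [zero_smul] at h3
    exact h3 rfl
  rw [Algebra.smul_def, hχ _ _ (by
    rw [Ne, map_eq_zero_iff _ (algebraMap K F).injective]
    exact hc0) hy, hχK c hc0, zero_add] at h4
  exact h4

end Pool.Agent.PSG
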