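import Mathlib

/-!
# PSG-FillA: companion matrices and determinants as forms

* `exists_comp`: the matrix of the multiplication by the root in the power basis of `AdjoinRoot z`.
* `det_form`: the determinant of the matrix `∑ k, X k • (M ^ k).map C` of linear forms.
* `coord_form`: a linear functional applied to the coefficients of a form.
-/

namespace Pool.Agent.PSG

open Polynomial

universe u

theorem exists_comp {F : Type u} [Field F] (z : F[X]) (hz : z ≠ 0) :
    ∃ M : Matrix (Fin z.natDegree) (Fin z.natDegree) F,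
      M.charpoly = C z.leadingCoeff⁻¹ * z := by
  have h := charpoly_leftMulMatrix (AdjoinRoot.powerBasis hz)
  rw [AdjoinRoot.minpoly_powerBasis_gen hz] at h
  exact ⟨Algebra.leftMulMatrix (AdjoinRoot.powerBasis hz).basis (AdjoinRoot.powerBasis hz).gen,
    h.trans (mul_comm _ _)⟩

private lemma filla_entry {F : Type u} [Field F] {D : ℕ} (M : Matrix (Fin D) (Fin D) F) (N : ℕ)
    (i j : Fin D) :
    (∑ k : Fin N, (MvPolynomial.X k : MvPolynomial (Fin N) F) •
      (M ^ (k : ℕ)).map (MvPolynomial.C : F → MvPolynomial (Fin N) F)) i j =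
      ∑ k : Fin N, MvPolynomial.C ((M ^ (k : ℕ)) i j) * MvPolynomial.X k := by
  rw [Matrix.sum_apply]
  refine Finset.sum_congr rfl fun k _ => ?_
  rw [Matrix.smul_apply, Matrix.map_apply, smul_eq_mul, mul_comm]

theorem det_form {F : Type u} [Field F] {D : ℕ} (M : Matrix (Fin D) (Fin D) F) (N : ℕ) :
    ∃ Z : MvPolynomial (Fin N) F, Z.IsHomogeneous D ∧
      ∀ a : Fin N → F, MvPolynomial.eval a Z = (∑ k : Fin N, a k • M ^ (k : ℕ)).det := by
  refine ⟨(∑ k : Fin N, (MvPolynomial.X k : MvPolynomial (Fin N) F) •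
      (M ^ (k : ℕ)).map (MvPolynomial.C : F → MvPolynomial (Fin N) F)).det, ?_, fun a => ?_⟩
  · rw [Matrix.det_apply']
    refine MvPolynomial.IsHomogeneous.sum _ _ _ fun σ _ => ?_
    have h1 : (∏ i : Fin D, (∑ k : Fin N, (MvPolynomial.X k : MvPolynomial (Fin N) F) •
        (M ^ (k : ℕ)).map (MvPolynomial.C : F → MvPolynomial (Fin N) F)) (σ i) i).IsHomogeneous
          (∑ _i : Fin D, 1) := by
      refine MvPolynomial.IsHomogeneous.prod _ _ _ fun i _ => ?_
      rw [filla_entry]
      exact MvPolynomial.IsHomogeneous.sum _ _ _ fun k _ => MvPolynomial.isHomogeneous_C_mul_X _ _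
    have h2 : (∑ _i : Fin D, 1) = D := by simp
    rw [h2] at h1
    rcases Int.units_eq_one_or (Equiv.Perm.sign σ) with h | h
    · rw [h]
      simpa using h1
    · rw [h]
      simpa using h1.neg
  · rw [RingHom.map_det]
    congr 1
    ext i j
    rw [RingHom.mapMatrix_apply, Matrix.map_apply, filla_entry, map_sum, Matrix.sum_apply]
    refine Finset.sum_congr rfl fun k _ => ?_
    rw [map_mul, MvPolynomial.eval_C, MvPolynomial.eval_X, Matrix.smul_apply, smul_eq_mul, mul_comm]

theorem coord_form {K F : Type u} [Field K] [Field F] [Algebra K F] (lam : F →ₗ[K] K) {D N : ℕ}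
    (Z : MvPolynomial (Fin N) F) (hZ : Z.IsHomogeneous D) :
    ∃ W : MvPolynomial (Fin N) K, W.IsHomogeneous D ∧
      ∀ a : Fin N → K, MvPolynomial.eval a W =
        lam (MvPolynomial.eval (fun i => algebraMap K F (a i)) Z) := by
  refine ⟨∑ m ∈ Z.support, MvPolynomial.monomial m (lam (Z.coeff m)), ?_, fun a => ?_⟩
  · refine MvPolynomial.IsHomogeneous.sum _ _ _ fun m hm => MvPolynomial.isHomogeneous_monomial _ ?_
    by_contra h
    exact (MvPolynomial.mem_support_iff.1 hm) (hZ.coeff_eq_zero h)
  · rw [map_sum, MvPolynomial.eval_eq (fun i => algebraMap K F (a i)) Z, map_sum]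
    refine Finset.sum_congr rfl fun m _ => ?_
    rw [MvPolynomial.eval_monomial]
    have h1 : MvPolynomial.coeff m Z * ∏ i ∈ m.support, algebraMap K F (a i) ^ m i =
        (∏ i ∈ m.support, a i ^ m i) • MvPolynomial.coeff m Z := by
      rw [Algebra.smul_def, map_prod, mul_comm]
      simp only [map_pow]
    rw [h1, map_smul, smul_eq_mul, mul_comm]
    rfl

end Pool.Agent.PSG
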