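import Pool.Agent.PSG.Key

/-!
# PSG-Frob: powers of the characteristic and radicals

* `exists_Q`: a power `Q = p ^ j > 1` of the form `N t + 1`, `N` prime to `p`.
* `frob_radl`: if `C ^ N ∈ K` then `C ^ (N t + 1) = κ C` with `κ ∈ K`.
-/

namespace Pool.Agent.PSG

open Pool.Agent.PSF

universe u v

theorem exists_Q {p N : ℕ} (hp : p.Prime) (hN : N.Coprime p) (hN0 : N ≠ 0) :
    ∃ j t : ℕ, 0 < j ∧ p ^ j = N * t + 1 := by
  have h1 : p ^ N.totient ≡ 1 [MOD N] := Nat.ModEq.pow_totient hN.symm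
  have h2 : 1 ≤ p ^ N.totient := Nat.one_le_pow _ _ hp.pos
  have h3 : N ∣ p ^ N.totient - 1 := (Nat.modEq_iff_dvd' h2).1 h1.symm
  obtain ⟨t, ht⟩ := h3
  refine ⟨N.totient, t, Nat.totient_pos.2 (Nat.pos_of_ne_zero hN0), ?_⟩
  omega

theorem coprime_of_natCast_ne_zero {K : Type u} [Field K] {p ℓ : ℕ} (hp : p.Prime) (hℓ : ℓ.Prime)
    [CharP K p] (hK : (ℓ : K) ≠ 0) (n : ℕ) : (ℓ ^ n).Coprime p := by
  apply Nat.Coprime.pow_left
  rw [Nat.coprime_primes hℓ hp]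
  rintro rfl
  exact hK (CharP.cast_eq_zero K ℓ)

variable {K L : Type u} [Field K] [Field L] [Algebra K L]

theorem frob_radl {N t : ℕ} {C : L} (h : InB K L (C ^ N)) :
    ∃ κ : K, C ^ (N * t + 1) = algebraMap K L κ * C := by
  obtain ⟨c, hc⟩ := h
  exact ⟨c ^ t, by rw [pow_succ, pow_mul, hc, map_pow]⟩

/-- Radicals with a common exponent. -/
theorem InB_mul_exp {ℓ n m : ℕ} {C : L} (h : InB K L (C ^ ℓ ^ n)) (hnm : n ≤ m) :
    InB K L (C ^ ℓ ^ m) := by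
  obtain ⟨c, hc⟩ := h
  obtain ⟨k, rfl⟩ := Nat.exists_eq_add_of_le hnm
  exact ⟨c ^ ℓ ^ k, by rw [pow_add, pow_mul, hc, map_pow]⟩

end Pool.Agent.PSG
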