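import Pool.Agent.PSG.Root

/-!
# PSG-Kum: irreducible polynomials of degree `ℓ` split in Kummer extensions

`K` contains a primitive `ℓ`-th root of unity and all irreducible polynomials over `K` have `ℓ`-power degree; `L / K`
contains `ℓ`-th roots of all elements of `K`.  Every irreducible `g : K[X]` of degree `ℓ` splits over a subfield
`F = K(θ)` of `L` of degree `ℓ` with `θ ^ ℓ ∈ K`.

PLAN.  `K` is perfect (`perfect_of_spec`).  `M := g.SplittingField`, Galois over `K`;
`M = K(α)` (`Field.exists_primitive_element`), so `[M : K] = natDegree (minpoly K α) = ℓ ^ k` and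
`G := M ≃ₐ[K] M` is a finite group of order `ℓ ^ k` (`IsGalois.card_aut_eq_finrank`).  Let `r ∈ M` be a root of `g`,
`N := K⟮r⟯`, `[N : K] = ℓ`.  `H := N.fixingSubgroup` has index `ℓ`, the smallest prime factor of `|G|`, so it is
normal (`Subgroup.normal_of_index_eq_minFac_card`) and `N` is Galois over `K`
(`IsGalois.of_fixedField_normal_subgroup`, `IsGalois.fixedField_fixingSubgroup`); so `g` (the minimal polynomial of `r` up to a
constant) splits over `N` (`Normal.splits`).  `Gal(N/K)` has prime order `ℓ`, so it is cyclic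
(`isCyclic_of_prime_card`), and `exists_root_adjoin_eq_top_of_isCyclic` gives `α' : N` with `α' ^ ℓ = c ∈ K`,
`K⟮α'⟯ = ⊤`.  Let `θ' ∈ L` be an `ℓ`-th root of `c`.  `minpoly K α' = X ^ ℓ - C c` (it divides it, and the degree of
`α'` is `ℓ`), and `θ'` is a root; so there is `φ : N →ₐ[K] L` with `φ α' = θ'`
(`IntermediateField.adjoin.powerBasis`/`PowerBasis.lift`, or `IntermediateField.nonempty_algHom..`).  `F := φ.fieldRange`,
`θ := ⟨θ', _⟩`; `F ≃ₐ[K] N`.  `θ ∉ K`, since otherwise `α' ∈ K` and `N = K`.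
-/

namespace Pool.Agent.PSG

open Polynomial

universe u

private theorem kum_splits {K F : Type u} [Field K] [Field F] [Algebra K F] {g m : K[X]} {a : K}
    (ha : a ≠ 0) (h : m = g * C a) (hm : (m.map (algebraMap K F)).Splits) :
    (g.map (algebraMap K F)).Splits := by
  have h1 : g = C a⁻¹ * m := by
    rw [h, mul_comm g, ← mul_assoc, ← C_mul, inv_mul_cancel₀ ha, C_1, one_mul]
  rw [h1, Polynomial.map_mul, map_C]
  exact hm.C_mul _

/-- The Galois part: the field `N` inside the splitting field. -/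
private theorem kum_cyc {ℓ : ℕ} (hℓ : ℓ.Prime) {K : Type u} [Field K] (hK : (ℓ : K) ≠ 0)
    (hs : Spec ℓ K) {ζ : K} (hζ : IsPrimitiveRoot ζ ℓ) (g : K[X]) (hg : Irreducible g)
    (hd : g.natDegree = ℓ) :
    ∃ (N : IntermediateField K g.SplittingField) (α : N) (c : K),
      Module.finrank K N = ℓ ∧ IntermediateField.adjoin K {α} = ⊤ ∧ α ^ ℓ = algebraMap K N c ∧
        (g.map (algebraMap K N)).Splits := by
  have hperf := perfect_of_spec hℓ hK hs
  have hsep : g.Separable := PerfectField.separable_of_irreducible hg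
  haveI : IsGalois K g.SplittingField := IsGalois.of_separable_splitting_field hsep
  obtain ⟨α, hα⟩ := Field.exists_primitive_element K g.SplittingField
  obtain ⟨k, hk⟩ := hs (minpoly K α) (minpoly.irreducible (Algebra.IsIntegral.isIntegral α))
  have hfin : Module.finrank K g.SplittingField = ℓ ^ k := by
    rw [← IntermediateField.finrank_top', ← hα,
      IntermediateField.adjoin.finrank (Algebra.IsIntegral.isIntegral α), hk]
  have hdeg : (g.map (algebraMap K g.SplittingField)).degree ≠ 0 := by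
    rw [degree_map, degree_eq_natDegree hg.ne_zero, hd]
    exact_mod_cast hℓ.ne_zero
  obtain ⟨r, hr⟩ := (SplittingField.splits g).exists_eval_eq_zero hdeg
  rw [eval_map_algebraMap] at hr
  have hmin : minpoly K r = g * C g.leadingCoeff⁻¹ := (minpoly.eq_of_irreducible hg hr).symm
  have hlc : g.leadingCoeff⁻¹ ≠ 0 := inv_ne_zero (leadingCoeff_ne_zero.2 hg.ne_zero)
  have hri : IsIntegral K r := Algebra.IsIntegral.isIntegral r
  let N : IntermediateField K g.SplittingField := IntermediateField.adjoin K {r}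
  have hN : Module.finrank K N = ℓ := by
    rw [IntermediateField.adjoin.finrank hri, hmin, natDegree_mul_C hlc, hd]
  have hcard : Nat.card Gal(g.SplittingField/K) = ℓ ^ k := by
    rw [IsGalois.card_aut_eq_finrank, hfin]
  have hidx : N.fixingSubgroup.index = ℓ := by
    rw [← IntermediateField.finrank_eq_fixingSubgroup_index, hN]
  have hk0 : k ≠ 0 := by
    rintro rfl
    have h1 := N.fixingSubgroup.index_dvd_card
    rw [hidx, hcard, pow_zero, Nat.dvd_one] at h1
    exact hℓ.one_lt.ne' h1
  have hnorm : N.fixingSubgroup.Normal := by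
    refine Subgroup.normal_of_index_eq_minFac_card ?_
    rw [hidx, hcard, hℓ.pow_minFac hk0]
  have hgal : IsGalois K N := by
    have h1 : IsGalois K (IntermediateField.fixedField N.fixingSubgroup) := inferInstance
    rwa [IsGalois.fixedField_fixingSubgroup] at h1
  have hcyc : IsCyclic Gal(N/K) := by
    haveI : Fact ℓ.Prime := ⟨hℓ⟩
    refine isCyclic_of_prime_card (p := ℓ) ?_
    rw [IsGalois.card_aut_eq_finrank, hN]
  have hprim : (primitiveRoots (Module.finrank K N) K).Nonempty := by
    rw [hN]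
    exact ⟨ζ, (mem_primitiveRoots hℓ.pos).2 hζ⟩
  obtain ⟨β, ⟨c, hc⟩, hβ⟩ := exists_root_adjoin_eq_top_of_isCyclic K N hprim
  rw [hN] at hc
  refine ⟨N, β, c, hN, hβ, hc.symm, kum_splits hlc (m := minpoly K (⟨r, IntermediateField.mem_adjoin_simple_self K r⟩ : N)) ?_ ?_⟩
  · rw [← hmin]
    exact (minpoly.algebraMap_eq (algebraMap N g.SplittingField).injective _).symm
  · exact Normal.splits inferInstance _

theorem kum {ℓ : ℕ} (hℓ : ℓ.Prime) {K L : Type u} [Field K] [Field L] [Algebra K L]
    (hK : (ℓ : K) ≠ 0) (hs : Spec ℓ K) {ζ : K} (hζ : IsPrimitiveRoot ζ ℓ)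
    (hroot : ∀ c : K, ∃ x : L, x ^ ℓ = algebraMap K L c) (g : K[X]) (hg : Irreducible g)
    (hd : g.natDegree = ℓ) :
    ∃ F : IntermediateField K L, Module.finrank K F = ℓ ∧
      (∃ θ : F, (∀ c : K, θ ≠ algebraMap K F c) ∧ ∃ c : K, θ ^ ℓ = algebraMap K F c) ∧
      (g.map (algebraMap K F)).Splits := by
  obtain ⟨N, α, c, hN, hα, hc, hsp⟩ := kum_cyc hℓ hK hs hζ g hg hd
  have hfd : FiniteDimensional K N := Module.finite_of_finrank_pos (by rw [hN]; exact hℓ.pos)
  obtain ⟨x, hx⟩ := hroot c
  have hai : IsIntegral K α := Algebra.IsIntegral.isIntegral α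
  have hdm : (minpoly K α).natDegree = ℓ := by
    rw [← IntermediateField.adjoin.finrank hai, hα, IntermediateField.finrank_top', hN]
  have hmin : minpoly K α = X ^ ℓ - C c := by
    refine (eq_of_monic_of_dvd_of_natDegree_le (minpoly.monic hai) (monic_X_pow_sub_C c hℓ.ne_zero)
      (minpoly.dvd K α ?_) ?_).symm
    · rw [map_sub, map_pow, aeval_X, aeval_C, hc, sub_self]
    · rw [natDegree_X_pow_sub_C, hdm]
  have htop : Algebra.adjoin K {α} = ⊤ := by
    rw [← IntermediateField.adjoin_simple_toSubalgebra_of_isAlgebraic hai.isAlgebraic, hα,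
      IntermediateField.top_toSubalgebra]
  let pb : PowerBasis K N := PowerBasis.ofAdjoinEqTop hai htop
  have hgen : pb.gen = α := PowerBasis.ofAdjoinEqTop_gen hai htop
  have hroot2 : aeval x (minpoly K pb.gen) = 0 := by
    rw [hgen, hmin, map_sub, map_pow, aeval_X, aeval_C, hx, sub_self]
  let φ : N →ₐ[K] L := pb.lift x hroot2
  let e : N ≃ₐ[K] φ.fieldRange := AlgEquiv.ofInjectiveField φ
  refine ⟨φ.fieldRange, ?_, ⟨e α, fun d hd' => ?_, c, ?_⟩, hsp.of_algHom e.toAlgHom⟩
  · rw [← e.toLinearEquiv.finrank_eq, hN]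
  · have h1 : α = algebraMap K N d := e.injective (by rw [hd', e.commutes])
    have h2 : IntermediateField.adjoin K {α} = ⊥ := by
      rw [h1]
      exact IntermediateField.adjoin_simple_eq_bot_iff.2 (IntermediateField.algebraMap_mem ⊥ d)
    have h3 : Module.finrank K N = 1 := by
      rw [← IntermediateField.finrank_top', ← hα, h2, IntermediateField.finrank_bot]
    rw [hN] at h3
    exact hℓ.one_lt.ne' h3
  · rw [← map_pow, hc, e.commutes]

end Pool.Agent.PSG
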