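import Pool.Agent.PSG.LemA
import Pool.Agent.PSG.Kum
import Pool.Agent.PSF.FinA

/-!
# PSG-Fsp: `β x y = 0` for `x, y ∈ F + K C`, `F / K` of degree `ℓ`, `C` a radical
-/

namespace Pool.Agent.PSG

open Pool.Agent.PSF Polynomial

universe u v

variable {ℓ : ℕ} {K L : Type u} [Field K] [Field L] [Algebra K L] {V : Type v} [AddCommGroup V]

/-- A subfield of degree `ℓ` is generated by an `ℓ`-th root. -/
theorem fsp_theta (hℓ : ℓ.Prime) (hK : (ℓ : K) ≠ 0) (hs : Spec ℓ K) {ζ : K}
    (hζ : IsPrimitiveRoot ζ ℓ) (hroot : ∀ c : K, ∃ x : L, x ^ ℓ = algebraMap K L c)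
    (F : IntermediateField K L) (hF : Module.finrank K F = ℓ) :
    ∃ θ : F, (∀ c : K, θ ≠ algebraMap K F c) ∧ ∃ c : K, θ ^ ℓ = algebraMap K F c := by
  have hfd : FiniteDimensional K F := FiniteDimensional.of_finrank_pos (by rw [hF]; exact hℓ.pos)
  obtain ⟨r, hr⟩ : ∃ r : F, ∀ c : K, r ≠ algebraMap K F c := by
    by_contra hcon
    push Not at hcon
    have h1 : (⊥ : IntermediateField K F) = ⊤ := by
      rw [eq_top_iff]
      intro x _
      obtain ⟨c, hc⟩ := hcon x
      rw [IntermediateField.mem_bot]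
      exact ⟨c, hc.symm⟩
    have h2 := IntermediateField.finrank_bot (F := K) (E := F)
    rw [h1, IntermediateField.finrank_top', hF] at h2
    exact hℓ.one_lt.ne' h2
  have hint : IsIntegral K r := IsIntegral.of_finite K r
  have hdeg : (minpoly K r).natDegree = ℓ := by
    have h1 : (minpoly K r).natDegree ∣ ℓ := by
      rw [← IntermediateField.adjoin.finrank hint, ← hF]
      exact Dvd.intro _ (Module.finrank_mul_finrank K (IntermediateField.adjoin K {r}) F)
    rcases (Nat.dvd_prime hℓ).1 h1 with h2 | h2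
    · exfalso
      have h3 : (minpoly K r).degree = 1 := by
        rw [Polynomial.degree_eq_natDegree (minpoly.ne_zero hint), h2, Nat.cast_one]
      obtain ⟨c, hc⟩ := minpoly.mem_range_of_degree_eq_one K r h3
      exact hr c hc.symm
    · exact h2
  obtain ⟨F', hF', ⟨θ, hθ, hθ'⟩, hsp⟩ := kum hℓ hK hs hζ hroot (minpoly K r)
    (minpoly.irreducible hint) hdeg
  have hrF' : (r : L) ∈ F' := by
    have h1 : ((minpoly K r).map (algebraMap K L)).eval (r : L) = 0 := by
      rw [eval_map_algebraMap]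
      have h2 := congrArg (algebraMap F L) (minpoly.aeval K r)
      rw [map_zero, ← aeval_algebraMap_apply] at h2
      exact h2
    have h3 : (minpoly K r).map (algebraMap K L) =
        ((minpoly K r).map (algebraMap K F')).map (algebraMap F' L) := by
      rw [Polynomial.map_map, ← IsScalarTower.algebraMap_eq]
    rw [h3, hsp.eq_prod_roots_of_monic ((minpoly.monic hint).map _)] at h1
    rw [Polynomial.map_multiset_prod, Multiset.map_map] at h1
    rw [Polynomial.eval_multiset_prod, Multiset.map_map] at h1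
    rw [Multiset.prod_eq_zero_iff, Multiset.mem_map] at h1
    obtain ⟨s, _, h4⟩ := h1
    simp only [Function.comp_apply, Polynomial.map_sub, map_X, map_C, eval_sub, eval_X,
      eval_C] at h4
    rw [sub_eq_zero.1 h4]
    exact s.2
  have hle : F ≤ F' := by
    have h1 : F = IntermediateField.adjoin K {(r : L)} := by
      have h2 : IntermediateField.adjoin K {(r : L)} ≤ F := by
        rw [IntermediateField.adjoin_simple_le_iff]
        exact r.2
      have hintL : IsIntegral K (r : L) := hint.map F.val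
      have h3 : Module.finrank K (IntermediateField.adjoin K {(r : L)}) = ℓ := by
        rw [IntermediateField.adjoin.finrank hintL, ← hdeg]
        congr 1
        exact minpoly.algebraMap_eq (algebraMap F L).injective r
      exact (IntermediateField.eq_of_le_of_finrank_eq h2 (by rw [h3, hF])).symm
    rw [h1, IntermediateField.adjoin_simple_le_iff]
    exact hrF'
  have hfd' : FiniteDimensional K F' :=
    FiniteDimensional.of_finrank_pos (by rw [hF']; exact hℓ.pos)
  have heq : F = F' := IntermediateField.eq_of_le_of_finrank_eq hle (by rw [hF, hF'])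
  subst heq
  exact ⟨θ, hθ, hθ'⟩

theorem fsp {p : ℕ} (hp : p.Prime) [CharP K p] (hℓ : ℓ.Prime) (hs : Spec ℓ K)
    (hK : (ℓ : K) ≠ 0) {ζ : K} (hζ : IsPrimitiveRoot ζ ℓ)
    (hroot : ∀ c : K, ∃ x : L, x ^ ℓ = algebraMap K L c) {S : SymSys ℓ L V} (h : Kills K S)
    {C : L} (hC : IsRadl ℓ K L C) (F : IntermediateField K L) (hF : Module.finrank K F = ℓ)
    {x y : L} (hx : ∃ r ∈ F, ∃ c : K, x = r + algebraMap K L c * C)
    (hy : ∃ r ∈ F, ∃ c : K, y = r + algebraMap K L c * C) (hx0 : x ≠ 0) (hy0 : y ≠ 0) :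
    S.β x y = 0 := by
  have : Fact p.Prime := ⟨hp⟩
  have : CharP L p := charP_of_injective_algebraMap (algebraMap K L).injective p
  have hfd : FiniteDimensional K F := FiniteDimensional.of_finrank_pos (by rw [hF]; exact hℓ.pos)
  obtain ⟨n, hn⟩ := hC
  have hn1 : InB K L (C ^ ℓ ^ (n + 1)) := InB_mul_exp hn (Nat.le_succ n)
  obtain ⟨j, t, hj, hQ⟩ := exists_Q hp (coprime_of_natCast_ne_zero hp hℓ hK (n + 1))
    (pow_ne_zero (n + 1) hℓ.ne_zero)
  obtain ⟨κ, hκ⟩ := frob_radl (t := t) hn1
  rw [← hQ] at hκ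
  have hQ' : p ^ j = ℓ * (ℓ ^ n * t) + 1 := by rw [hQ, pow_succ]; ring
  obtain ⟨θ, hθ, c, hc⟩ := fsp_theta hℓ hK hs hζ hroot F hF
  have key1 : ∀ r ∈ F, ∀ s ∈ F, C - r ≠ 0 → s ≠ 0 → S.β (C - r) s = 0 := by
    intro r hr s hs0 h1 h2
    exact lemA (F := F) hℓ hs hK h hF hθ hc hj hQ' hκ (r := ⟨r, hr⟩) (y := ⟨s, hs0⟩) h1
      (fun h3 => h2 (congrArg Subtype.val h3))
  have key2 : ∀ r ∈ F, ∀ s ∈ F, C - r ≠ 0 → C - s ≠ 0 → S.β (C - r) (C - s) = 0 := by
    intro r hr s hs0 h1 h2
    by_cases h3 : r = s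
    · rw [h3]
      exact S.self h2
    · have h4 : r - s ≠ 0 := sub_ne_zero.2 h3
      rw [S.sub_sub h1 h2 h3, S.symm h4 h2, S.symm h4 h1, key1 s hs0 _ (sub_mem hr hs0) h2 h4,
        key1 r hr _ (sub_mem hr hs0) h1 h4, neg_zero, sub_zero]
  have key3 : ∀ r ∈ F, ∀ s ∈ F, r ≠ 0 → s ≠ 0 → S.β r s = 0 := by
    have hle : F ≤ IntermediateField.adjoin K {C : L | InB K L (C ^ ℓ)} := by
      have h1 : IntermediateField.adjoin K {(θ : L)} = F := by
        have h2 : IntermediateField.adjoin K {(θ : L)} ≤ F := by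
          rw [IntermediateField.adjoin_simple_le_iff]
          exact θ.2
        have hint : IsIntegral K θ := IsIntegral.of_finite K θ
        have hintL : IsIntegral K (θ : L) := hint.map F.val
        have h3 : (minpoly K θ).natDegree ∣ ℓ := by
          rw [← IntermediateField.adjoin.finrank hint, ← hF]
          exact Dvd.intro _ (Module.finrank_mul_finrank K (IntermediateField.adjoin K {θ}) F)
        have h5 : (minpoly K θ).natDegree = ℓ := by
          rcases (Nat.dvd_prime hℓ).1 h3 with h4 | h4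
          · exfalso
            have h5 : (minpoly K θ).degree = 1 := by
              rw [Polynomial.degree_eq_natDegree (minpoly.ne_zero hint), h4, Nat.cast_one]
            obtain ⟨d, hd⟩ := minpoly.mem_range_of_degree_eq_one K θ h5
            exact hθ d hd.symm
          · exact h4
        refine IntermediateField.eq_of_le_of_finrank_eq h2 ?_
        rw [IntermediateField.adjoin.finrank hintL, hF, ← h5]
        congr 1
        exact minpoly.algebraMap_eq (algebraMap F L).injective θ
      rw [← h1]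
      refine IntermediateField.adjoin.mono K _ _ ?_
      rintro _ rfl
      refine ⟨c, ?_⟩
      have h2 := congrArg (algebraMap F L) hc
      rw [map_pow, ← IsScalarTower.algebraMap_apply] at h2
      exact h2
    intro r hr s hs0 h1 h2
    exact layer1 hℓ hK (Or.inr (Or.inr hs)) hζ S h (hle hr) (hle hs0) h1 h2
  -- normal forms
  have hform : ∀ z : L, z ≠ 0 → (∃ r ∈ F, ∃ c : K, z = r + algebraMap K L c * C) →
      (z ∈ F) ∨ ∃ r ∈ F, ∃ c : K, c ≠ 0 ∧ C - r ≠ 0 ∧ z = algebraMap K L c * (C - r) := by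
    rintro z hz ⟨r, hr, d, hd⟩
    by_cases hd0 : d = 0
    · left
      rw [hd, hd0, map_zero, zero_mul, add_zero]
      exact hr
    · right
      have hd1 : algebraMap K L d ≠ 0 := (_root_.map_ne_zero _).2 hd0
      have hz1 : z = algebraMap K L d * (C - (-(algebraMap K L d)⁻¹ * r)) := by
        rw [hd]
        field_simp
        ring
      refine ⟨-(algebraMap K L d)⁻¹ * r, ?_, d, hd0, ?_, hz1⟩
      · exact mul_mem (neg_mem (inv_mem (F.algebraMap_mem d))) hr
      · intro h0
        rw [h0, mul_zero] at hz1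
        exact hz hz1
  rcases hform x hx0 hx with hx1 | ⟨r, hr, d, hd, hr0, hx1⟩
  · rcases hform y hy0 hy with hy1 | ⟨s, hs0, e, he, hs1, hy1⟩
    · exact key3 x hx1 y hy1 hx0 hy0
    · rw [hy1, h.smul_right he hs1 hx0, S.symm hx0 hs1, key1 s hs0 x hx1 hs1 hx0, neg_zero]
  · rcases hform y hy0 hy with hy1 | ⟨s, hs0, e, he, hs1, hy1⟩
    · rw [hx1, h.smul_left hd hr0 hy0, key1 r hr y hy1 hr0 hy0]
    · rw [hx1, hy1, h.smul_left hd hr0 (mul_ne_zero ((_root_.map_ne_zero _).2 he) hs1),
        h.smul_right he hs1 hr0, key2 r hr s hs0 hr0 hs1]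

end Pool.Agent.PSG
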