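import Pool.Agent.PSG.Key

/-!
# PSG-Gam: the curve `v ∈ ⟨z, z ^ Q⟩`, and stable planes

`F / K` is a cubic extension, `F → L`; `C ∈ L` with `C ^ Q = κ C`; `x = C - r`, `r ∈ F`; `v = r ^ Q - κ r`.
* `gam`: if `v, z, z ^ Q` are linearly dependent over `K` then `β x z = 0` (`κ x - x ^ Q = v`).
* `planeKill`: if `v` lies in a `K`-plane of `F` stable under `z ↦ z ^ Q` then `β x y = 0` for all `y`.
-/

namespace Pool.Agent.PSG

open Pool.Agent.PSF

universe u v

variable {ℓ : ℕ} {K L : Type u} [Field K] [Field L] [Algebra K L] {V : Type v} [AddCommGroup V]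

theorem dep3 {W : Type*} [AddCommGroup W] [Module K W] {a b x₁ x₂ x₃ : W}
    (h₁ : x₁ ∈ Submodule.span K {a, b}) (h₂ : x₂ ∈ Submodule.span K {a, b})
    (h₃ : x₃ ∈ Submodule.span K {a, b}) :
    ∃ s t r : K, (s ≠ 0 ∨ t ≠ 0 ∨ r ≠ 0) ∧ s • x₁ + t • x₂ + r • x₃ = 0 := by
  set M := Submodule.span K ({a, b} : Set W) with hM
  have hfin : Module.Finite K M := by
    apply Module.Finite.span_of_finite
    exact (Set.finite_singleton b).insert a
  have hrank : Module.finrank K M ≤ 2 := by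
    classical
    have h := finrank_span_finset_le_card (R := K) ({a, b} : Finset W)
    have e : ((({a, b} : Finset W)) : Set W) = {a, b} := by
      push_cast
      rfl
    rw [Set.finrank, e] at h
    exact h.trans Finset.card_le_two
  have hdep : ¬ LinearIndependent K ![(⟨x₁, h₁⟩ : M), ⟨x₂, h₂⟩, ⟨x₃, h₃⟩] := by
    intro hl
    have := hl.fintype_card_le_finrank
    simp at this
    omega
  rw [Fintype.linearIndependent_iff] at hdep
  push Not at hdep
  obtain ⟨g, hg, i, hi⟩ := hdep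
  refine ⟨g 0, g 1, g 2, ?_, ?_⟩
  · fin_cases i
    · exact Or.inl hi
    · exact Or.inr (Or.inl hi)
    · exact Or.inr (Or.inr hi)
  · have h5 := congrArg (fun z : M => (z : W)) hg
    simpa [Fin.sum_univ_three] using h5

variable {F : Type u} [Field F] [Algebra K F] [Algebra F L] [IsScalarTower K F L]

theorem dep4F (h3 : Module.finrank K F = 3) (x₁ x₂ x₃ x₄ : F) :
    ∃ a b c d : K, (a ≠ 0 ∨ b ≠ 0 ∨ c ≠ 0 ∨ d ≠ 0) ∧
      a • x₁ + b • x₂ + c • x₃ + d • x₄ = 0 := by
  have hfin : Module.Finite K F := Module.finite_of_finrank_eq_succ h3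
  have hdep : ¬ LinearIndependent K ![x₁, x₂, x₃, x₄] := by
    intro hl
    have := hl.fintype_card_le_finrank
    simp at this
    omega
  rw [Fintype.linearIndependent_iff] at hdep
  push Not at hdep
  obtain ⟨g, hg, i, hi⟩ := hdep
  refine ⟨g 0, g 1, g 2, g 3, ?_, ?_⟩
  · fin_cases i
    · exact Or.inl hi
    · exact Or.inr (Or.inl hi)
    · exact Or.inr (Or.inr (Or.inl hi))
    · exact Or.inr (Or.inr (Or.inr hi))
  · simpa [Fin.sum_univ_four] using hg

theorem gam {p : ℕ} [Fact p.Prime] [CharP L p] {S : SymSys ℓ L V} (h : Kills K S) {j : ℕ}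
    (hj : 0 < j) {C : L} {κ : K} (hC : C ^ p ^ j = algebraMap K L κ * C) {r z : F}
    (hx : C - algebraMap F L r ≠ 0) (hz : z ≠ 0) {lam μ ν : K} (hne : lam ≠ 0 ∨ μ ≠ 0 ∨ ν ≠ 0)
    (e : lam • (r ^ p ^ j - κ • r) + μ • z + ν • z ^ p ^ j = 0) :
    S.β (C - algebraMap F L r) (algebraMap F L z) = 0 := by
  have hp : p.Prime := Fact.out
  have e' := congrArg (algebraMap F L) e
  simp only [map_add, map_zero, map_sub, map_mul, map_pow, Algebra.smul_def,
    ← IsScalarTower.algebraMap_apply K F L] at e'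
  have hxQ : (C - algebraMap F L r) ^ p ^ j = algebraMap K L κ * C - algebraMap F L r ^ p ^ j := by
    rw [sub_pow_char_pow, hC]
  have hz' : algebraMap F L z ≠ 0 := (map_ne_zero _).2 hz
  refine key h (Nat.one_lt_pow hj.ne' hp.one_lt) hx hz' (a := lam * κ) (b := μ) (c := lam)
    (d := -ν) ?_ ?_
  · rcases hne with h1 | h1 | h1
    · exact Or.inr (Or.inr (Or.inl h1))
    · exact Or.inr (Or.inl h1)
    · exact Or.inr (Or.inr (Or.inr (neg_ne_zero.2 h1)))
  · rw [hxQ, map_mul, map_neg]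
    linear_combination e'

theorem planeKill {p : ℕ} [Fact p.Prime] [CharP L p] {S : SymSys ℓ L V} (h : Kills K S) {j : ℕ}
    (hj : 0 < j) {C : L} {κ : K} (hC : C ^ p ^ j = algebraMap K L κ * C)
    (h3 : Module.finrank K F = 3) {r : F} (hx : C - algebraMap F L r ≠ 0) {a b : F}
    (hab : ∀ s t : K, s • a + t • b = 0 → s = 0 ∧ t = 0)
    (hv : r ^ p ^ j - κ • r ∈ Submodule.span K {a, b})
    (ha : a ^ p ^ j ∈ Submodule.span K {a, b}) (hb : b ^ p ^ j ∈ Submodule.span K {a, b})
    {y : F} (hy : y ≠ 0) : S.β (C - algebraMap F L r) (algebraMap F L y) = 0 := by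
  have hF : CharP F p := (RingHom.charP_iff (algebraMap F L) (algebraMap F L).injective p).2
    inferInstance
  have h1 : ∀ s t : K, s • a + t • b ≠ 0 →
      S.β (C - algebraMap F L r) (algebraMap F L (s • a + t • b)) = 0 := by
    intro s t hst
    have m1 : s • a + t • b ∈ Submodule.span K {a, b} := Submodule.mem_span_pair.2 ⟨s, t, rfl⟩
    have m2 : (s • a + t • b) ^ p ^ j ∈ Submodule.span K {a, b} := by
      rw [add_pow_char_pow]
      have e1 : (s • a) ^ p ^ j = s ^ p ^ j • a ^ p ^ j := by rw [smul_pow]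
      have e2 : (t • b) ^ p ^ j = t ^ p ^ j • b ^ p ^ j := by rw [smul_pow]
      rw [e1, e2]
      exact Submodule.add_mem _ (Submodule.smul_mem _ _ ha) (Submodule.smul_mem _ _ hb)
    obtain ⟨lam, μ, ν, hne, e⟩ := dep3 hv m1 m2
    exact gam h hj hC hx hst hne e
  obtain ⟨s, t, s', t', hne, e⟩ := dep4F h3 (y * a) (y * b) a b
  set u := s • a + t • b with hu
  set u' := (-s') • a + (-t') • b with hu'
  have e1 : y * u = u' := by
    rw [hu, hu']
    simp only [neg_smul, mul_add, mul_smul_comm]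
    linear_combination e
  have hu0 : u ≠ 0 := by
    intro h0
    rw [h0, mul_zero] at e1
    obtain ⟨i1, i2⟩ := hab s t h0
    obtain ⟨i3, i4⟩ := hab (-s') (-t') e1.symm
    rw [neg_eq_zero] at i3 i4
    rcases hne with i | i | i | i
    · exact i i1
    · exact i i2
    · exact i i3
    · exact i i4
  have hu0' : u' ≠ 0 := by
    rw [← e1]
    exact mul_ne_zero hy hu0
  have i1 : S.β (C - algebraMap F L r) (algebraMap F L u) = 0 := h1 s t hu0
  have i2 : S.β (C - algebraMap F L r) (algebraMap F L u') = 0 := h1 (-s') (-t') hu0'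
  rw [← e1, map_mul, S.mul_right hx ((map_ne_zero _).2 hy) ((map_ne_zero _).2 hu0), i1,
    add_zero] at i2
  exact i2

end Pool.Agent.PSG
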