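import Pool.Agent.PSF.Sym

/-!
# PSG-Key: the Frobenius collinearity lemma

`S` is a symbol system over `L` which kills `K`.  If `m ≠ 0` is a `K`-combination of `x` and `y` then
`β x y = β x m + β m y` (`lineK`).  If a nontrivial relation `a x + b y = c x ^ Q + d y ^ Q`, `Q > 1`, with
coefficients in `K` holds then `β x y = 0` (`key`): with `m` the common value,
`β x y = β x m + β m y` and `Q ^ 2 β x y = Q (β x m + β m y)`.
-/

namespace Pool.Agent.PSG

open Pool.Agent.PSF

universe u v

variable {ℓ : ℕ} {K L : Type u} [Field K] [Field L] [Algebra K L] {V : Type v} [AddCommGroup V]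

/-- The symbol system kills `K`. -/
def Kills (K : Type u) {L : Type u} [Field K] [Field L] [Algebra K L] {V : Type v} [AddCommGroup V]
    (S : SymSys ℓ L V) : Prop :=
  ∀ c : K, c ≠ 0 → ∀ b : L, b ≠ 0 → S.β (algebraMap K L c) b = 0

theorem Kills.right {S : SymSys ℓ L V} (h : Kills K S) {c : K} (hc : c ≠ 0) {b : L} (hb : b ≠ 0) :
    S.β b (algebraMap K L c) = 0 := by
  rw [S.symm hb ((map_ne_zero _).2 hc), h c hc b hb, neg_zero]

theorem Kills.smul_left {S : SymSys ℓ L V} (h : Kills K S) {c : K} (hc : c ≠ 0) {x b : L}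
    (hx : x ≠ 0) (hb : b ≠ 0) : S.β (algebraMap K L c * x) b = S.β x b := by
  rw [S.mul_left ((map_ne_zero _).2 hc) hx hb, h c hc b hb, zero_add]

theorem Kills.smul_right {S : SymSys ℓ L V} (h : Kills K S) {c : K} (hc : c ≠ 0) {x b : L}
    (hx : x ≠ 0) (hb : b ≠ 0) : S.β b (algebraMap K L c * x) = S.β b x := by
  rw [S.mul_right hb ((map_ne_zero _).2 hc) hx, h.right hc hb, zero_add]

theorem lineK {S : SymSys ℓ L V} (h : Kills K S) {x y m : L} (hx : x ≠ 0) (hy : y ≠ 0)
    (hm : m ≠ 0) {a b : K} (e : algebraMap K L a * x + algebraMap K L b * y = m) :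
    S.β x y = S.β x m + S.β m y := by
  by_cases ha : a = 0
  · have hb : b ≠ 0 := by
      rintro rfl
      rw [ha, map_zero, zero_mul, zero_mul, add_zero] at e
      exact hm e.symm
    rw [ha, map_zero, zero_mul, zero_add] at e
    rw [← e, h.smul_right hb hy hx, h.smul_left hb hy hy, S.self hy, add_zero]
  by_cases hb : b = 0
  · rw [hb, map_zero, zero_mul, add_zero] at e
    rw [← e, h.smul_right ha hx hx, h.smul_left ha hx hy, S.self hx, zero_add]
  have ha' : algebraMap K L a ≠ 0 := (map_ne_zero _).2 ha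
  have hb' : algebraMap K L b ≠ 0 := (map_ne_zero _).2 hb
  have h1 := S.line (mul_ne_zero ha' hx) (mul_ne_zero hb' hy) hm e
  rw [h.smul_left ha hx (mul_ne_zero hb' hy), h.smul_right hb hy hx, h.smul_left ha hx hm,
    h.smul_right hb hy hm] at h1
  exact h1

theorem key {S : SymSys ℓ L V} (h : Kills K S) {Q : ℕ} (hQ : 1 < Q) {x y : L} (hx : x ≠ 0)
    (hy : y ≠ 0) {a b c d : K} (hne : a ≠ 0 ∨ b ≠ 0 ∨ c ≠ 0 ∨ d ≠ 0)
    (e : algebraMap K L a * x + algebraMap K L b * y =
      algebraMap K L c * x ^ Q + algebraMap K L d * y ^ Q) : S.β x y = 0 := by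
  have hxQ : x ^ Q ≠ 0 := pow_ne_zero _ hx
  have hyQ : y ^ Q ≠ 0 := pow_ne_zero _ hy
  have prop : ∀ {s t : K} {x' y' : L}, x' ≠ 0 → y' ≠ 0 → (s ≠ 0 ∨ t ≠ 0) →
      algebraMap K L s * x' + algebraMap K L t * y' = 0 → S.β x' y' = 0 := by
    intro s t x' y' hx' hy' hst h0
    have hs : s ≠ 0 := by
      rintro rfl
      rw [map_zero, zero_mul, zero_add] at h0
      rcases mul_eq_zero.1 h0 with h1 | h1
      · rcases hst with h2 | h2
        · exact h2 rfl
        · exact h2 ((map_eq_zero _).1 h1)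
      · exact hy' h1
    have ht : t ≠ 0 := by
      rintro rfl
      rw [map_zero, zero_mul, add_zero] at h0
      rcases mul_eq_zero.1 h0 with h1 | h1
      · exact hs ((map_eq_zero _).1 h1)
      · exact hx' h1
    have ht' : algebraMap K L t ≠ 0 := (map_ne_zero _).2 ht
    have h2 : y' = algebraMap K L (-s / t) * x' := by
      rw [map_div₀, map_neg]
      field_simp
      linear_combination h0
    rw [h2, h.smul_right (div_ne_zero (neg_ne_zero.2 hs) ht) hx' hx', S.self hx']
  by_cases hm : algebraMap K L a * x + algebraMap K L b * y = 0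
  · by_cases hab : a ≠ 0 ∨ b ≠ 0
    · exact prop hx hy hab hm
    · rw [not_or, not_not, not_not] at hab
      have hcd : c ≠ 0 ∨ d ≠ 0 := by
        rcases hne with h1 | h1 | h1 | h1
        · exact absurd hab.1 h1
        · exact absurd hab.2 h1
        · exact Or.inl h1
        · exact Or.inr h1
      have h1 := prop hxQ hyQ hcd (by rw [← e, hm])
      rw [S.pow_left hx hyQ, S.pow_right hx hy] at h1
      have h2 := S.torsionFree Q _ (by omega) h1
      exact S.torsionFree Q _ (by omega) h2
  · have h1 := lineK h hx hy hm rfl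
    have h2 := lineK h hxQ hyQ hm e.symm
    rw [S.pow_left hx hyQ, S.pow_right hx hy, S.pow_left hx hm, S.pow_right hm hy, ← smul_add,
      ← h1] at h2
    have h3 : (Q - 1) • (Q • S.β x y) = 0 := by
      have h4 : (Q - 1 + 1) • (Q • S.β x y) = Q • S.β x y := by
        rw [Nat.sub_add_cancel hQ.le]
        exact h2
      rw [add_smul, one_smul] at h4
      exact left_eq_add.1 (by rw [add_comm]; exact h4.symm)
    have h5 := S.torsionFree (Q - 1) _ (by omega) h3
    exact S.torsionFree Q _ (by omega) h5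

end Pool.Agent.PSG
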