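import Mathlib

/-! PSG-Par: rational parametrization of the curve `v ∈ ⟨z, z ^ Q⟩`. -/

namespace Pool.Agent.PSG

open Polynomial

universe u

private noncomputable def parP {K : Type*} [Field K] (Q : ℕ) (c : ℕ → K) : ℕ → K[X]
  | 0 => C (c 0) * X
  | i + 1 => X * (parP Q c i ^ Q + C (c (i + 1)))

private def parD (Q : ℕ) : ℕ → ℕ
  | 0 => 1
  | i + 1 => 1 + Q * parD Q i

private theorem par_dpos (Q : ℕ) (i : ℕ) : 0 < parD Q i := by
  cases i with
  | zero => exact Nat.one_pos
  | succ i => show 0 < 1 + Q * parD Q i; omega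

private theorem par_dlt {Q : ℕ} (hQ : 0 < Q) : StrictMono (parD Q) := by
  refine strictMono_nat_of_lt_succ fun i => ?_
  show parD Q i < 1 + Q * parD Q i
  have := Nat.le_mul_of_pos_left (parD Q i) hQ
  omega

private theorem par_dmod {ℓ T Q : ℕ} (hQ : Q = ℓ * T + 1) (i : ℕ) :
    parD Q i ≡ i + 1 [MOD ℓ] := by
  induction i with
  | zero => exact Nat.ModEq.refl _
  | succ i ih =>
    show 1 + Q * parD Q i ≡ i + 1 + 1 [MOD ℓ]
    have h1 : 1 + Q * parD Q i = ℓ * (T * parD Q i) + (parD Q i + 1) := by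
      rw [hQ]; ring
    rw [h1]
    have h2 : ℓ * (T * parD Q i) + (parD Q i + 1) ≡ 0 + (i + 1 + 1) [MOD ℓ] :=
      Nat.ModEq.add ((Nat.modEq_zero_iff_dvd).mpr (Dvd.intro _ rfl)) (ih.add_right 1)
    rwa [zero_add] at h2

private theorem par_deg {K : Type*} [Field K] {Q : ℕ} (hQ : 0 < Q) (c : ℕ → K) (hc : c 0 ≠ 0)
    (i : ℕ) : (parP Q c i).natDegree = parD Q i ∧
      (parP Q c i).leadingCoeff = c 0 ^ Q ^ i := by
  induction i with
  | zero =>
    show (C (c 0) * X).natDegree = 1 ∧ (C (c 0) * X).leadingCoeff = c 0 ^ Q ^ 0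
    rw [natDegree_C_mul_X _ hc, leadingCoeff_mul, leadingCoeff_C, leadingCoeff_X, mul_one,
      pow_zero, pow_one]
    exact ⟨rfl, rfl⟩
  | succ i ih =>
    obtain ⟨ih1, ih2⟩ := ih
    show (X * (parP Q c i ^ Q + C (c (i + 1)))).natDegree = 1 + Q * parD Q i ∧
      (X * (parP Q c i ^ Q + C (c (i + 1)))).leadingCoeff = c 0 ^ Q ^ (i + 1)
    have h1 : (parP Q c i ^ Q + C (c (i + 1))).natDegree = Q * parD Q i := by
      rw [natDegree_add_C, natDegree_pow, ih1]
    have hpos : 0 < Q * parD Q i := Nat.mul_pos hQ (par_dpos Q i)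
    have h2 : parP Q c i ^ Q + C (c (i + 1)) ≠ 0 := by
      intro h
      rw [h, natDegree_zero] at h1
      omega
    have h3 : (parP Q c i ^ Q + C (c (i + 1))).leadingCoeff = c 0 ^ Q ^ (i + 1) := by
      rw [leadingCoeff, h1, coeff_add, coeff_C_of_ne_zero hpos.ne', add_zero]
      have h4 : (parP Q c i ^ Q).natDegree = Q * parD Q i := by rw [natDegree_pow, ih1]
      rw [← h4]
      show (parP Q c i ^ Q).leadingCoeff = _
      rw [leadingCoeff_pow, ih2, ← pow_mul, pow_succ]
    constructor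
    · rw [natDegree_X_mul h2, h1, add_comm]
    · rw [leadingCoeff_mul, leadingCoeff_X, one_mul, h3]

/-- the sequence of roots and the first linear relation -/
private theorem par_seq {ℓ p j : ℕ} (hℓ : ℓ.Prime) (hp : p.Prime)
    {K F : Type u} [Field K] [Field F] [Algebra K F] [CharP F p]
    (hF : Module.finrank K F = ℓ) (hperf : ∀ x : F, ∃ y : F, y ^ p ^ j = x) {v : F} (hv : v ≠ 0)
    (hv1 : ∀ k : K, v ^ p ^ j ≠ k • v) :
    ∃ (N : ℕ) (w : ℕ → F) (c : ℕ → K), N + 2 ≤ ℓ ∧ c 0 ≠ 0 ∧ w (N + 1) = v ∧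
      (∀ i < N + 1, w i ^ p ^ j = w (i + 1)) ∧
      v ^ p ^ j = ∑ i ∈ Finset.range (N + 2), c i • w i ∧
      (∀ e : ℕ → K, ∑ i ∈ Finset.range (N + 2), e i • w i = 0 → ∀ i < N + 2, e i = 0) := by
  classical
  haveI := Fact.mk hp
  haveI hfd : FiniteDimensional K F := by
    apply FiniteDimensional.of_finrank_pos
    rw [hF]
    exact hℓ.pos
  choose rt hrt using hperf
  set u : ℕ → F := fun i => Nat.rec v (fun _ x => rt x) i with hu
  have hu0 : u 0 = v := rfl
  have hus : ∀ i, u (i + 1) ^ p ^ j = u i := fun i => hrt (u i)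
  have hex : ∃ n, ¬ LinearIndependent K (fun i : Fin (n + 1) => u i) := by
    refine ⟨ℓ, fun h => ?_⟩
    have h1 := h.fintype_card_le_finrank
    rw [Fintype.card_fin, hF] at h1
    omega
  obtain ⟨m, hm, hmin⟩ : ∃ m, ¬ LinearIndependent K (fun i : Fin (m + 1) => u i) ∧
      ∀ n < m, LinearIndependent K (fun i : Fin (n + 1) => u i) :=
    ⟨Nat.find hex, Nat.find_spec hex, fun n hn => not_not.mp (Nat.find_min hex hn)⟩
  have hm0 : m ≠ 0 := by
    rintro rfl
    apply hm
    show LinearIndependent K (fun i : Fin 1 => u i)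
    rw [linearIndependent_unique_iff]
    exact hv
  obtain ⟨M, rfl⟩ := Nat.exists_eq_succ_of_ne_zero hm0
  have hind : LinearIndependent K (fun i : Fin (M + 1) => u i) := hmin M (Nat.lt_succ_self M)
  have hMl : M + 1 ≤ ℓ := by
    have h1 := hind.fintype_card_le_finrank
    rw [Fintype.card_fin, hF] at h1
    exact h1
  have hspan : u (M + 1) ∈ Submodule.span K (Set.range (fun i : Fin (M + 1) => u i)) := by
    by_contra hcon
    apply hm
    rw [Nat.succ_eq_add_one, linearIndependent_finSucc']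
    refine ⟨?_, ?_⟩
    · exact hind
    · rw [Fin.val_last]
      exact hcon
  rw [Submodule.mem_span_range_iff_exists_fun] at hspan
  obtain ⟨b', hb'⟩ := hspan
  set b : ℕ → K := fun i => if h : i < M + 1 then b' ⟨i, h⟩ else 0 with hb
  have hbu : u (M + 1) = ∑ i ∈ Finset.range (M + 1), b i • u i := by
    rw [← hb', Finset.sum_range]
    refine Finset.sum_congr rfl fun i _ => ?_
    rw [hb]
    beta_reduce
    rw [dif_pos i.2]
  have hlin : ∀ e : ℕ → K, ∑ i ∈ Finset.range (M + 1), e i • u i = 0 → ∀ i < M + 1, e i = 0 := by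
    intro e he i hi
    rw [Finset.sum_range] at he
    exact Fintype.linearIndependent_iff.mp hind (fun i : Fin (M + 1) => e i) he ⟨i, hi⟩
  have hsp : ∀ (a : K) (x : F), (a • x) ^ p ^ j = a ^ p ^ j • x ^ p ^ j := fun a x =>
    smul_pow a x _
  -- the `Q`-th power of the relation
  have hrel : u M = ∑ i ∈ Finset.range M, b (i + 1) ^ p ^ j • u i + b 0 ^ p ^ j • v ^ p ^ j := by
    rw [← hus M, hbu, sum_pow_char_pow, Finset.sum_range_succ']
    congr 1
    · refine Finset.sum_congr rfl fun i _ => ?_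
      rw [hsp, hus]
    · rw [hsp, hu0]
  have hQ0 : p ^ j ≠ 0 := (pow_pos hp.pos j).ne'
  have hb0 : b 0 ≠ 0 := by
    intro h
    rw [h, zero_pow hQ0, zero_smul, add_zero] at hrel
    have h1 := hlin (fun i => if i < M then b (i + 1) ^ p ^ j else -1) (by
      rw [Finset.sum_range_succ, if_neg (lt_irrefl M), neg_smul, one_smul]
      rw [← sub_eq_add_neg, sub_eq_zero, hrel]
      refine Finset.sum_congr rfl fun i hi => ?_
      rw [if_pos (Finset.mem_range.mp hi)]) M (Nat.lt_succ_self M)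
    beta_reduce at h1
    rw [if_neg (lt_irrefl M)] at h1
    exact neg_ne_zero.mpr one_ne_zero h1
  have hbQ : b 0 ^ p ^ j ≠ 0 := pow_ne_zero _ hb0
  -- `M ≠ 0`
  have hM0 : M ≠ 0 := by
    rintro rfl
    rw [Finset.sum_range_zero, zero_add, hu0] at hrel
    apply hv1 ((b 0 ^ p ^ j)⁻¹)
    conv_rhs => rw [hrel]
    rw [inv_smul_smul₀ hbQ]
  obtain ⟨N, rfl⟩ := Nat.exists_eq_succ_of_ne_zero hM0
  rw [Nat.succ_eq_add_one] at *
  refine ⟨N, fun i => u (N + 1 - i),
    fun i => if i = 0 then (b 0 ^ p ^ j)⁻¹ else -((b 0 ^ p ^ j)⁻¹ * b (N + 2 - i) ^ p ^ j),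
    by omega, ?_, ?_, ?_, ?_, ?_⟩
  · beta_reduce
    rw [if_pos rfl]
    exact inv_ne_zero hbQ
  · beta_reduce
    rw [Nat.sub_self]
    exact hu0
  · intro i hi
    beta_reduce
    rw [show N + 1 - i = (N + 1 - (i + 1)) + 1 by omega, hus]
  · have h1 : v ^ p ^ j = (b 0 ^ p ^ j)⁻¹ • (u (N + 1) -
        ∑ i ∈ Finset.range (N + 1), b (i + 1) ^ p ^ j • u i) := by
      rw [eq_inv_smul_iff₀ hbQ, eq_sub_iff_add_eq, add_comm]
      exact hrel.symm
    rw [h1, smul_sub, sub_eq_neg_add]
    conv_rhs => rw [Finset.sum_range_succ']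
    have h2 : -((b 0 ^ p ^ j)⁻¹ • ∑ i ∈ Finset.range (N + 1), b (i + 1) ^ p ^ j • u i) =
        ∑ i ∈ Finset.range (N + 1), (if i + 1 = 0 then (b 0 ^ p ^ j)⁻¹ else
          -((b 0 ^ p ^ j)⁻¹ * b (N + 2 - (i + 1)) ^ p ^ j)) • u (N + 1 - (i + 1)) := by
      rw [← Finset.sum_range_reflect (fun i => b (i + 1) ^ p ^ j • u i), Finset.smul_sum,
        ← Finset.sum_neg_distrib]
      refine Finset.sum_congr rfl fun i hi => ?_
      have hi' := Finset.mem_range.mp hi
      rw [if_neg (Nat.succ_ne_zero i), neg_smul, mul_smul,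
        show N + 1 - 1 - i + 1 = N + 2 - (i + 1) by omega,
        show N + 1 - 1 - i = N + 1 - (i + 1) by omega]
    rw [h2]
    rfl
  · intro e he i hi
    have h1 := hlin (fun i => e (N + 1 - i)) (by
      rw [← Finset.sum_range_reflect, ← he]
      refine Finset.sum_congr rfl fun i hi => ?_
      have hi' := Finset.mem_range.mp hi
      rw [show N + 1 - (N + 1 + 1 - 1 - i) = i by omega,
        show N + 1 + 1 - 1 - i = N + 1 - i by omega]) (N + 1 - i) (by omega)
    beta_reduce at h1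
    rwa [show N + 1 - (N + 1 - i) = i by omega] at h1

theorem param {ℓ p j T : ℕ} (hℓ : ℓ.Prime) (hp : p.Prime) (hj : 0 < j) (hQ : p ^ j = ℓ * T + 1)
    {K F : Type u} [Field K] [Field F] [Algebra K F] [CharP F p]
    (hF : Module.finrank K F = ℓ) (hperf : ∀ x : F, ∃ y : F, y ^ p ^ j = x) {v : F} (hv : v ≠ 0)
    (hv1 : ∀ k : K, v ^ p ^ j ≠ k • v) :
    ∃ z : F[X], ¬ ℓ ∣ z.natDegree ∧ (∃ c : K, c ≠ 0 ∧ z.leadingCoeff ^ p ^ j = c • v) ∧
      ∀ ρ : K, z.eval (algebraMap K F ρ) ≠ 0 ∧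
        ∃ μ : K, z.eval (algebraMap K F ρ) - ρ • z.eval (algebraMap K F ρ) ^ p ^ j = μ • v := by
  classical
  haveI := Fact.mk hp
  obtain ⟨N, w, c, hN, hc0, hwv, hws, hvc, hlin⟩ := par_seq hℓ hp hF hperf hv hv1
  set Q := p ^ j with hQd
  have hQ0 : 0 < Q := pow_pos hp.pos j
  have hw : ∀ i < N + 2, w i ≠ 0 := by
    intro i hi h0
    have h1 := hlin (fun k => if k = i then 1 else 0) (by
      refine Finset.sum_eq_zero fun k _ => ?_
      by_cases hk : k = i
      · rw [hk, h0, smul_zero]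
      · rw [if_neg hk, zero_smul]) i hi
    beta_reduce at h1
    rw [if_pos rfl] at h1
    exact one_ne_zero h1
  have hev : ∀ ρ : K, (∑ i ∈ Finset.range (N + 1), (parP Q c i).map (algebraMap K F) * C (w i) +
      C v).eval (algebraMap K F ρ) =
      ∑ i ∈ Finset.range (N + 1), (parP Q c i).eval ρ • w i + v := by
    intro ρ
    rw [eval_add, eval_C, eval_finsetSum]
    congr 1
    refine Finset.sum_congr rfl fun i _ => ?_
    rw [eval_mul, eval_C, eval_map_algebraMap, aeval_algebraMap_apply, Algebra.smul_def]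
    rfl
  -- the degree and the leading coefficient
  have hwN : w N ≠ 0 := hw N (by omega)
  have hBdeg : ((parP Q c N).map (algebraMap K F) * C (w N)).natDegree = parD Q N := by
    rw [natDegree_mul_C hwN, natDegree_map, (par_deg hQ0 c hc0 N).1]
  have hAdeg : (∑ i ∈ Finset.range N, (parP Q c i).map (algebraMap K F) * C (w i) +
      C v).natDegree < ((parP Q c N).map (algebraMap K F) * C (w N)).natDegree := by
    rw [hBdeg]
    have h1 : (∑ i ∈ Finset.range N, (parP Q c i).map (algebraMap K F) * C (w i)).natDegree ≤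
        parD Q N - 1 := by
      refine natDegree_sum_le_of_forall_le _ _ fun i hi => ?_
      have h2 := natDegree_mul_C_le ((parP Q c i).map (algebraMap K F)) (w i)
      rw [natDegree_map, (par_deg hQ0 c hc0 i).1] at h2
      have h3 := par_dlt hQ0 (Finset.mem_range.mp hi)
      omega
    have h4 := natDegree_add_le (∑ i ∈ Finset.range N, (parP Q c i).map (algebraMap K F) *
      C (w i)) (C v)
    rw [natDegree_C, Nat.max_zero] at h4
    have h5 := par_dpos Q N
    omega
  have hsplit : ∑ i ∈ Finset.range (N + 1), (parP Q c i).map (algebraMap K F) * C (w i) + C v =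
      (∑ i ∈ Finset.range N, (parP Q c i).map (algebraMap K F) * C (w i) + C v) +
        (parP Q c N).map (algebraMap K F) * C (w N) := by
    rw [Finset.sum_range_succ]
    ring
  have hdeg : (∑ i ∈ Finset.range (N + 1), (parP Q c i).map (algebraMap K F) * C (w i) +
      C v).natDegree = parD Q N := by
    rw [hsplit, natDegree_add_eq_right_of_natDegree_lt hAdeg, hBdeg]
  have hlead : (∑ i ∈ Finset.range (N + 1), (parP Q c i).map (algebraMap K F) * C (w i) +
      C v).leadingCoeff = algebraMap K F (c 0 ^ Q ^ N) * w N := by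
    rw [hsplit, leadingCoeff_add_of_degree_lt (degree_lt_degree hAdeg), leadingCoeff_mul,
      leadingCoeff_C, leadingCoeff_map, (par_deg hQ0 c hc0 N).2]
  refine ⟨∑ i ∈ Finset.range (N + 1), (parP Q c i).map (algebraMap K F) * C (w i) + C v,
    ?_, ?_, ?_⟩
  · -- the degree
    rw [hdeg]
    intro hdvd
    have h1 : parD Q N ≡ N + 1 [MOD ℓ] := par_dmod hQ N
    have h2 : ℓ ∣ N + 1 := (Nat.ModEq.dvd_iff h1 dvd_rfl).mp hdvd
    exact absurd (Nat.le_of_dvd (Nat.succ_pos N) h2) (by omega)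
  · refine ⟨(c 0 ^ Q ^ N) ^ Q, pow_ne_zero _ (pow_ne_zero _ hc0), ?_⟩
    rw [hlead, mul_pow, ← map_pow, hws N (Nat.lt_succ_self N), hwv, Algebra.smul_def]
  · intro ρ
    rw [hev]
    constructor
    · -- nonzero
      intro h0
      have h1 := hlin (fun i => if i < N + 1 then (parP Q c i).eval ρ else 1) (by
        rw [Finset.sum_range_succ, if_neg (lt_irrefl (N + 1)), one_smul, hwv, ← h0]
        congr 1
        refine Finset.sum_congr rfl fun i hi => ?_
        rw [if_pos (Finset.mem_range.mp hi)]) (N + 1) (Nat.lt_succ_self (N + 1))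
      beta_reduce at h1
      rw [if_neg (lt_irrefl (N + 1))] at h1
      exact one_ne_zero h1
    · refine ⟨1 - (parP Q c (N + 1)).eval ρ, ?_⟩
      -- the power
      have h1 : (∑ i ∈ Finset.range (N + 1), (parP Q c i).eval ρ • w i + v) ^ Q =
          ∑ i ∈ Finset.range (N + 1), (parP Q c i).eval ρ ^ Q • w (i + 1) +
            ∑ i ∈ Finset.range (N + 2), c i • w i := by
        rw [← hvc, hQd, add_pow_char_pow, sum_pow_char_pow]
        congr 1
        refine Finset.sum_congr rfl fun i hi => ?_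
        rw [_root_.smul_pow, hws i (Finset.mem_range.mp hi)]
      have h2 : ρ • (∑ i ∈ Finset.range (N + 1), (parP Q c i).eval ρ • w i + v) ^ Q =
          ∑ i ∈ Finset.range (N + 2), (parP Q c i).eval ρ • w i := by
        rw [h1, Finset.sum_range_succ' (fun i => c i • w i),
          Finset.sum_range_succ' (fun i => (parP Q c i).eval ρ • w i), ← add_assoc,
          ← Finset.sum_add_distrib, smul_add, Finset.smul_sum]
        congr 1
        · refine Finset.sum_congr rfl fun i _ => ?_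
          show _ = (X * (parP Q c i ^ Q + C (c (i + 1)))).eval ρ • w (i + 1)
          rw [eval_mul, eval_X, eval_add, eval_pow, eval_C, ← add_smul, smul_smul]
        · show _ = (C (c 0) * X).eval ρ • w 0
          rw [eval_mul, eval_X, eval_C, smul_smul, mul_comm]
      rw [h2, Finset.sum_range_succ _ (N + 1), hwv, sub_smul, one_smul]
      abel

end Pool.Agent.PSG
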