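import Pool.Agent.PSG.Gam
import Pool.Agent.PSG.Fill
import Pool.Agent.PSG.Par
import Pool.Agent.PSG.Frob

/-!
# PSG-LemA: `β (C - r) y = 0` for `r, y` in a Kummer extension of `K` of degree `ℓ`

PLAN.  `Q = p ^ j`, `v := r ^ Q - κ • r`, `χ y := S.β (C - r) (algebraMap F L y)`, a character of `Fˣ` killing `Kˣ`.
`gam` : `χ z = 0` if `z ≠ 0` and `lam • v + μ • z + ν • z ^ Q = 0`, not all coefficients zero.
* `v = 0`: `gam` with `(1, 0, 0)`.
* `v ^ Q = k • v` for some `k : K`, `v ≠ 0`: `fill` with `z := C v * (C θ + X)` (degree `1`, leading coefficient `v`):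
  `χ v = 0` by `gam` with `(1, -1, 0)`; `θ ^ Q = θ ^ (ℓ T + 1) = c ^ T • θ`, so
  `z(ρ) ^ Q = k v (c ^ T θ + ρ ^ Q)` is a combination of `z(ρ) = v θ + ρ v` and `v`: `gam` with
  `z ^ Q - (k c ^ T) z - k (ρ ^ Q - c ^ T ρ) v = 0`.  `z(ρ) ≠ 0` as `θ ∉ K`.
* otherwise `param` and `fill`; `gam` with `(-μ, 1, -ρ)` for `z(ρ)`, and with `(c, 0, -1)` for the leading
  coefficient (`≠ 0` as its `Q`-th power is `c v ≠ 0`).
-/

namespace Pool.Agent.PSG

open Pool.Agent.PSF

universe u v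

variable {ℓ : ℕ} {K L : Type u} [Field K] [Field L] [Algebra K L] {V : Type v} [AddCommGroup V]
variable {F : Type u} [Field F] [Algebra K F] [Algebra F L] [IsScalarTower K F L]

theorem lemA {p : ℕ} [Fact p.Prime] [CharP K p] [CharP L p] (hℓ : ℓ.Prime) (hs : Spec ℓ K)
    (hK : (ℓ : K) ≠ 0) {S : SymSys ℓ L V} (h : Kills K S) (hF : Module.finrank K F = ℓ)
    {θ : F} (hθ : ∀ c : K, θ ≠ algebraMap K F c) {c : K} (hc : θ ^ ℓ = algebraMap K F c)
    {j T : ℕ} (hj : 0 < j) (hQ : p ^ j = ℓ * T + 1) {C : L} {κ : K}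
    (hC : C ^ p ^ j = algebraMap K L κ * C) {r y : F} (hx : C - algebraMap F L r ≠ 0)
    (hy : y ≠ 0) : S.β (C - algebraMap F L r) (algebraMap F L y) = 0 := by
  have hp : p.Prime := Fact.out
  have hF1 : Module.Finite K F := Module.finite_of_finrank_pos (by rw [hF]; exact hℓ.pos)
  have hF2 : CharP F p := charP_of_injective_algebraMap (algebraMap K F).injective p
  set v : F := r ^ p ^ j - κ • r with hv
  set χ : F → V := fun y => S.β (C - algebraMap F L r) (algebraMap F L y) with hχdef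
  have hne : ∀ {x : F}, x ≠ 0 → algebraMap F L x ≠ 0 := fun hx => (map_ne_zero _).2 hx
  have hχ : ∀ x y : F, x ≠ 0 → y ≠ 0 → χ (x * y) = χ x + χ y := by
    intro x y hx' hy'
    simp only [hχdef, map_mul]
    exact S.mul_right hx (hne hx') (hne hy')
  have hχK : ∀ c : K, c ≠ 0 → χ (algebraMap K F c) = 0 := by
    intro c hc'
    simp only [hχdef, ← IsScalarTower.algebraMap_apply K F L]
    exact h.right hc' hx
  have G : ∀ {z : F}, z ≠ 0 → ∀ {lam μ ν : K}, (lam ≠ 0 ∨ μ ≠ 0 ∨ ν ≠ 0) →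
      lam • v + μ • z + ν • z ^ p ^ j = 0 → χ z = 0 := by
    intro z hz lam μ ν hne' e
    exact gam h hj hC hx hz hne' e
  show χ y = 0
  by_cases hv0 : v = 0
  · exact G hy (lam := 1) (μ := 0) (ν := 0) (Or.inl one_ne_zero) (by
      rw [hv0, smul_zero, zero_smul, zero_smul, add_zero, add_zero])
  by_cases hk : ∃ k : K, v ^ p ^ j = k • v
  · obtain ⟨k, hk⟩ := hk
    have hθQ : θ ^ p ^ j = algebraMap K F (c ^ T) * θ := by
      rw [hQ, pow_succ, pow_mul, hc, map_pow]
    refine fill hℓ hK hs hF χ hχ hχK (Polynomial.C v * (Polynomial.X + Polynomial.C θ))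
      ?_ ?_ ?_ ?_ hy
    · rw [Polynomial.natDegree_C_mul hv0, Polynomial.natDegree_X_add_C]
      intro hd
      exact absurd (Nat.le_of_dvd one_pos hd) (not_le.2 hℓ.one_lt)
    · intro ρ
      rw [Polynomial.eval_mul, Polynomial.eval_C, Polynomial.eval_add, Polynomial.eval_X,
        Polynomial.eval_C]
      refine mul_ne_zero hv0 fun h0 => hθ (-ρ) ?_
      rw [map_neg]
      exact eq_neg_of_add_eq_zero_right h0
    · intro ρ
      rw [Polynomial.eval_mul, Polynomial.eval_C, Polynomial.eval_add, Polynomial.eval_X,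
        Polynomial.eval_C]
      have hz0 : v * (algebraMap K F ρ + θ) ≠ 0 := by
        refine mul_ne_zero hv0 fun h0 => hθ (-ρ) ?_
        rw [map_neg]
        exact eq_neg_of_add_eq_zero_right h0
      refine G hz0 (lam := -(k * (ρ ^ p ^ j - c ^ T * ρ))) (μ := -(k * c ^ T)) (ν := 1)
        (Or.inr (Or.inr one_ne_zero)) ?_
      rw [mul_pow, add_pow_char_pow, hθQ, hk]
      simp only [Algebra.smul_def, map_neg, map_mul, map_sub, map_pow, map_one]
      ring
    · rw [Polynomial.leadingCoeff_mul, Polynomial.leadingCoeff_C,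
        (Polynomial.monic_X_add_C θ).leadingCoeff, mul_one]
      exact G hv0 (lam := 1) (μ := -1) (ν := 0) (Or.inl one_ne_zero) (by
        rw [one_smul, neg_smul, one_smul, zero_smul, add_zero, add_neg_cancel])
  · push Not at hk
    obtain ⟨z, hD, ⟨c', hc', hlc⟩, hz⟩ := param hℓ hp hj hQ hF
      (fun x => exists_pow_char hℓ hK hs j x) hv0 hk
    refine fill hℓ hK hs hF χ hχ hχK z hD (fun ρ => (hz ρ).1) ?_ ?_ hy
    · intro ρ
      obtain ⟨hz0, μ, e⟩ := hz ρ
      refine G hz0 (lam := -μ) (μ := 1) (ν := -ρ) (Or.inr (Or.inl one_ne_zero)) ?_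
      rw [neg_smul, one_smul, neg_smul, ← e]
      abel
    · have hl0 : z.leadingCoeff ≠ 0 := by
        intro h0
        rw [h0, zero_pow (pow_ne_zero _ hp.ne_zero)] at hlc
        exact smul_ne_zero hc' hv0 hlc.symm
      refine G hl0 (lam := c') (μ := 0) (ν := -1) (Or.inl hc') ?_
      rw [zero_smul, add_zero, neg_smul, one_smul, hlc, add_neg_cancel]

end Pool.Agent.PSG
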