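import Pool.Agent.PSG.LemA
import Pool.Agent.PSG.Kum
import Pool.Agent.PSF.Top

/-!
# PSG-Pol: the symbols `{f(C), g(C)}` for a radical `C` and polynomials of degree `< ℓ ^ 2`

PLAN.  `C ^ ℓ ^ n ∈ K`, also for `n + 1` in place of `n` (`InB_mul_exp`), so `exists_Q`,
`coprime_of_natCast_ne_zero`, `frob_radl` give `p ^ j = ℓ ^ (n + 1) t + 1 = ℓ T + 1`, `0 < j`, and `C ^ p ^ j = κ C`.
`CharP L p`: `charP_of_injective_algebraMap`.  `x = aeval C`.
1. `β (C - a) (C - b) = 0` for `a, b ∈ K`: `S.self` if `a = b`, otherwise `S.sub_sub` and `h` (`a - b ∈ K`).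
2. `g` monic irreducible of degree `ℓ`, `a ∈ K`: `kum` gives `F`; `g(C) = ∏ (C - r_i)`, `r_i ∈ F` (`Splits`, roots),
   `β (C - a) (C - r) = 0` for `a, r ∈ F`: `S.self` if equal, otherwise `S.sub_sub` and `lemA` twice
   (`β (a - r) (C - r) = - β (C - r) (a - r)`, `S.symm`).  All factors are `≠ 0` because `g(C) ≠ 0`.
3. By multiplicativity (`S.mul_left`, `S.mul_right`, `Kills` for constants): `β (q(C)) (g(C)) = 0` if `q ≠ 0` is a
   polynomial of degree `< ℓ` (it is a product of linear factors and a constant: `exists_root_of_spec`) and `g` is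
   linear or irreducible of degree `ℓ`.
4. `f ≠ g` monic irreducible of degree `ℓ`: `q := f - g` has degree `< ℓ`.  If `q(C) = 0` then
   `f(C) = g(C)`: `S.self`.  Otherwise `S.line` for `g(C) + q(C) = f(C)`:
   `β (g(C)) (q(C)) = β (g(C)) (f(C)) + β (f(C)) (q(C))` and 3.
5. General: `f`, `g` are products of a constant and monic irreducible polynomials of degree `ℓ ^ k < ℓ ^ 2`, so of degree
   `1` or `ℓ` (induction with `WfDvdMonoid.induction_on_irreducible` or on the degree; a factor of a polynomial of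
   degree `< ℓ ^ 2` has degree `< ℓ ^ 2`).
-/

namespace Pool.Agent.PSG

open Pool.Agent.PSF Polynomial

universe u v

variable {ℓ : ℕ} {K L : Type u} [Field K] [Field L] [Algebra K L] {V : Type v} [AddCommGroup V]

/-- reduction to monic irreducible factors -/
private theorem pol_fac {S : SymSys ℓ L V} (h : Kills K S) (x b : L) (hb : b ≠ 0) (N : ℕ)
    (H : ∀ q : K[X], q.Monic → Irreducible q → q.natDegree < N → aeval x q ≠ 0 →
      S.β (aeval x q) b = 0) :
    ∀ (d : ℕ) (f : K[X]), f.natDegree = d → f.natDegree < N → aeval x f ≠ 0 →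
      S.β (aeval x f) b = 0 := by
  intro d
  induction d using Nat.strong_induction_on with
  | _ d ih =>
    intro f hd hN hf
    have hf0 : f ≠ 0 := by
      rintro rfl
      exact hf (map_zero _)
    by_cases hu : IsUnit f
    · obtain ⟨c, hc, rfl⟩ := Polynomial.isUnit_iff.1 hu
      rw [aeval_C]
      exact h c hc.ne_zero b hb
    · obtain ⟨q, hqm, hqi, f', rfl⟩ := Polynomial.exists_monic_irreducible_factor f hu
      have hq0 : q ≠ 0 := hqi.ne_zero
      have hf'0 : f' ≠ 0 := right_ne_zero_of_mul hf0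
      have hdeg := natDegree_mul hq0 hf'0
      have hq1 : 0 < q.natDegree := hqi.natDegree_pos
      rw [map_mul] at hf ⊢
      have h1 := left_ne_zero_of_mul hf
      have h2 := right_ne_zero_of_mul hf
      rw [S.mul_left h1 h2 hb, H q hqm hqi (by omega) h1,
        ih f'.natDegree (by omega) f' rfl (by omega) h2, add_zero]

private theorem pol_lin {q : K[X]} (hq : q.Monic) (hd : q.natDegree = 1) (x : L) :
    ∃ a : K, aeval x q = x - algebraMap K L a := by
  refine ⟨-(q.coeff 0), ?_⟩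
  rw [hq.eq_X_add_C hd]
  simp

/-- two linear polynomials -/
private theorem pol_A {S : SymSys ℓ L V} (h : Kills K S) {x : L} {a b : K}
    (ha : x - algebraMap K L a ≠ 0) (hb : x - algebraMap K L b ≠ 0) :
    S.β (x - algebraMap K L a) (x - algebraMap K L b) = 0 := by
  by_cases hab : a = b
  · rw [hab]
    exact S.self hb
  · have hne : algebraMap K L a ≠ algebraMap K L b := fun h1 => hab ((algebraMap K L).injective h1)
    rw [S.sub_sub ha hb hne, ← map_sub, h _ (sub_ne_zero.2 hab) _ hb, h _ (sub_ne_zero.2 hab) _ ha,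
      sub_zero]

private theorem pol_mprod {S : SymSys ℓ L V} {y : L} (hy : y ≠ 0) (m : Multiset L)
    (H : ∀ r ∈ m, r ≠ 0 ∧ S.β y r = 0) : m.prod ≠ 0 ∧ S.β y m.prod = 0 := by
  induction m using Multiset.induction_on with
  | empty =>
    rw [Multiset.prod_zero]
    exact ⟨one_ne_zero, S.one_right hy⟩
  | cons r m ih =>
    obtain ⟨h1, h2⟩ := H r (Multiset.mem_cons_self r m)
    obtain ⟨h3, h4⟩ := ih (fun r' hr' => H r' (Multiset.mem_cons_of_mem hr'))
    rw [Multiset.prod_cons]
    exact ⟨mul_ne_zero h1 h3, by rw [S.mul_right hy h1 h3, h2, h4, add_zero]⟩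

/-- a linear polynomial and an irreducible polynomial of degree `ℓ` -/
private theorem pol_B {p : ℕ} [Fact p.Prime] [CharP K p] [CharP L p] (hℓ : ℓ.Prime) (hs : Spec ℓ K)
    (hK : (ℓ : K) ≠ 0) {ζ : K} (hζ : IsPrimitiveRoot ζ ℓ)
    (hroot : ∀ c : K, ∃ x : L, x ^ ℓ = algebraMap K L c) {S : SymSys ℓ L V} (h : Kills K S)
    {x : L} {j T : ℕ} (hj : 0 < j) (hQ : p ^ j = ℓ * T + 1) {κ : K}
    (hx : x ^ p ^ j = algebraMap K L κ * x) {a : K} (ha : x - algebraMap K L a ≠ 0) {g : K[X]}
    (hgm : g.Monic) (hg : Irreducible g) (hd : g.natDegree = ℓ) (hg0 : aeval x g ≠ 0) :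
    S.β (x - algebraMap K L a) (aeval x g) = 0 := by
  obtain ⟨F, hF, ⟨θ, hθ, c, hc⟩, hspl⟩ := kum hℓ hK hs hζ hroot g hg hd
  have hprod := hspl.eq_prod_roots_of_monic (hgm.map (algebraMap K F))
  have heval : aeval x g =
      ((g.map (algebraMap K F)).roots.map (fun r => x - algebraMap F L r)).prod := by
    have h1 : aeval x g = aeval x (g.map (algebraMap K F)) := by
      rw [aeval_map_algebraMap]
    rw [h1]
    conv_lhs => rw [hprod]
    rw [map_multiset_prod, Multiset.map_map]
    congr 1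
    apply Multiset.map_congr rfl
    intro r _
    simp
  have ha' : x - algebraMap F L (algebraMap K F a) ≠ 0 := by
    rw [← IsScalarTower.algebraMap_apply]
    exact ha
  have hlem : ∀ r : F, x - algebraMap F L r ≠ 0 → S.β (x - algebraMap K L a) (x - algebraMap F L r) = 0 := by
    intro r hr
    rw [IsScalarTower.algebraMap_apply K F L a]
    by_cases hra : algebraMap K F a = r
    · rw [hra]
      exact S.self hr
    · have hne : algebraMap F L (algebraMap K F a) ≠ algebraMap F L r :=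
        fun h1 => hra ((algebraMap F L).injective h1)
      have hy : algebraMap K F a - r ≠ 0 := sub_ne_zero.2 hra
      have hyL : algebraMap F L (algebraMap K F a - r) ≠ 0 := (_root_.map_ne_zero _).2 hy
      rw [S.sub_sub ha' hr hne, ← map_sub, S.symm hyL hr, S.symm hyL ha',
        lemA hℓ hs hK h hF hθ hc hj hQ hx hr hy, lemA hℓ hs hK h hF hθ hc hj hQ hx ha' hy, neg_zero,
        sub_zero]
  rw [heval]
  refine (pol_mprod ha _ ?_).2
  intro r hr
  obtain ⟨r', hr', rfl⟩ := Multiset.mem_map.1 hr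
  have hr0 : x - algebraMap F L r' ≠ 0 := by
    intro h0
    apply hg0
    rw [heval]
    apply Multiset.prod_eq_zero
    rw [← h0]
    exact Multiset.mem_map_of_mem _ hr'
  exact ⟨hr0, hlem r' hr0⟩

theorem pol {p : ℕ} (hp : p.Prime) [CharP K p] (hℓ : ℓ.Prime) (hs : Spec ℓ K)
    (hK : (ℓ : K) ≠ 0) {ζ : K} (hζ : IsPrimitiveRoot ζ ℓ)
    (hroot : ∀ c : K, ∃ x : L, x ^ ℓ = algebraMap K L c) {S : SymSys ℓ L V} (h : Kills K S)
    {C : L} (hC : IsRadl ℓ K L C) {f g : K[X]} (hf : f.natDegree < ℓ ^ 2)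
    (hg : g.natDegree < ℓ ^ 2) (hf0 : aeval C f ≠ 0) (hg0 : aeval C g ≠ 0) :
    S.β (aeval C f) (aeval C g) = 0 := by
  have : Fact p.Prime := ⟨hp⟩
  have : CharP L p := charP_of_injective_algebraMap (algebraMap K L).injective p
  obtain ⟨n, hn⟩ := hC
  obtain ⟨j, t, hj, hjt⟩ := exists_Q (N := ℓ ^ (n + 1)) hp (coprime_of_natCast_ne_zero hp hℓ hK (n + 1))
    (pow_ne_zero _ hℓ.ne_zero)
  obtain ⟨κ, hκ⟩ := frob_radl (t := t) (InB_mul_exp hn (Nat.le_succ n))
  have hx : C ^ p ^ j = algebraMap K L κ * C := by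
    rw [hjt]
    exact hκ
  have hQ : p ^ j = ℓ * (ℓ ^ n * t) + 1 := by
    rw [hjt]
    ring
  -- a linear polynomial or an irreducible polynomial of degree `ℓ`
  have hsmall : ∀ q : K[X], q.Monic → Irreducible q → q.natDegree < ℓ → aeval C q ≠ 0 →
      ∀ g : K[X], g.Monic → Irreducible g → (g.natDegree = 1 ∨ g.natDegree = ℓ) → aeval C g ≠ 0 →
      S.β (aeval C q) (aeval C g) = 0 := by
    intro q hqm hqi hqd hq0 g hgm hgi hgd hg0
    have hq1 : q.natDegree = 1 := by
      obtain ⟨k, hk⟩ := hs q hqi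
      rcases Nat.eq_zero_or_pos k with hk0 | hk0
      · rw [hk, hk0, pow_zero]
      · exfalso
        have h1 : ℓ ^ 1 ≤ ℓ ^ k := Nat.pow_le_pow_right hℓ.pos hk0
        rw [pow_one] at h1
        omega
    obtain ⟨a, ha⟩ := pol_lin (L := L) hqm hq1 C
    rw [ha] at hq0 ⊢
    rcases hgd with hgd | hgd
    · obtain ⟨b, hb⟩ := pol_lin (L := L) hgm hgd C
      rw [hb] at hg0 ⊢
      exact pol_A h hq0 hg0
    · exact pol_B hℓ hs hK hζ hroot h hj hQ hx hq0 hgm hgi hgd hg0
  have hC3 : ∀ q : K[X], q.natDegree < ℓ → aeval C q ≠ 0 →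
      ∀ g : K[X], g.Monic → Irreducible g → (g.natDegree = 1 ∨ g.natDegree = ℓ) → aeval C g ≠ 0 →
      S.β (aeval C q) (aeval C g) = 0 := by
    intro q hqd hq0 g hgm hgi hgd hg0
    exact pol_fac h C (aeval C g) hg0 ℓ (fun q' h1 h2 h3 h4 => hsmall q' h1 h2 h3 h4 g hgm hgi hgd hg0)
      q.natDegree q rfl hqd hq0
  have hdeg : ∀ q : K[X], Irreducible q → q.natDegree < ℓ ^ 2 → q.natDegree = 1 ∨ q.natDegree = ℓ := by
    intro q hq hd
    obtain ⟨k, hk⟩ := hs q hq
    rcases Nat.lt_or_ge k 2 with hk2 | hk2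
    · interval_cases k
      · left
        rw [hk, pow_zero]
      · right
        rw [hk, pow_one]
    · exfalso
      have h1 : ℓ ^ 2 ≤ ℓ ^ k := Nat.pow_le_pow_right hℓ.pos hk2
      omega
  have hirr : ∀ q : K[X], q.Monic → Irreducible q → q.natDegree < ℓ ^ 2 → aeval C q ≠ 0 →
      ∀ g : K[X], g.Monic → Irreducible g → g.natDegree < ℓ ^ 2 → aeval C g ≠ 0 →
      S.β (aeval C q) (aeval C g) = 0 := by
    intro q hqm hqi hqd hq0 g hgm hgi hgd hg0
    have h1ℓ : 1 < ℓ := hℓ.one_lt
    rcases hdeg q hqi hqd with hq1 | hqℓ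
    · exact hC3 q (by omega) hq0 g hgm hgi (hdeg g hgi hgd) hg0
    · rcases hdeg g hgi hgd with hg1 | hgℓ
      · rw [S.symm hq0 hg0, hC3 g (by omega) hg0 q hqm hqi (Or.inr hqℓ) hq0, neg_zero]
      · by_cases hqg : aeval C q = aeval C g
        · rw [hqg]
          exact S.self hg0
        · have hr0 : aeval C (g - q) ≠ 0 := by
            rw [map_sub]
            exact sub_ne_zero.2 (Ne.symm hqg)
          have hrd : (g - q).natDegree < ℓ := by
            have hne : g - q ≠ 0 := by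
              intro h0
              rw [h0, map_zero] at hr0
              exact hr0 rfl
            have h1 : (g - q).degree < g.degree := by
              apply degree_sub_lt_left
              · rw [degree_eq_natDegree hgi.ne_zero, degree_eq_natDegree hqi.ne_zero, hqℓ, hgℓ]
              · exact hgi.ne_zero
              · rw [hgm.leadingCoeff, hqm.leadingCoeff]
            have h2 := natDegree_lt_natDegree hne h1
            omega
          have hsum : aeval C q + aeval C (g - q) = aeval C g := by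
            rw [map_sub]
            ring
          have hline := S.line hq0 hr0 hg0 hsum
          rw [S.symm hq0 hr0, hC3 _ hrd hr0 q hqm hqi (Or.inr hqℓ) hq0, S.symm hg0 hr0,
            hC3 _ hrd hr0 g hgm hgi (Or.inr hgℓ) hg0, neg_zero, add_zero] at hline
          exact hline.symm
  refine pol_fac h C (aeval C g) hg0 (ℓ ^ 2) (fun q hqm hqi hqd hq0 => ?_) f.natDegree f rfl hf hf0
  rw [S.symm hq0 hg0, pol_fac h C (aeval C q) hq0 (ℓ ^ 2) (fun q' h1 h2 h3 h4 => ?_) g.natDegree g rfl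
    hg hg0, neg_zero]
  exact hirr q' h1 h2 h3 h4 q hqm hqi hqd hq0

end Pool.Agent.PSG
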