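import Pool.Agent.PSG.Pol
import Pool.Agent.PSF.FinM

/-!
# PSG-Sec: the second layer

PLAN.  `reductionM` with `m = 2`, `Lin ℓ K` by its third alternative (`hs`), `ζ1 := ζ ^ ℓ` (`IsPrimitiveRoot.pow`).
`hsing`: `C ^ ℓ ^ 2 ∈ K`; `C` is integral over `K`, its minimal polynomial has degree `≤ ℓ ^ 2` (it divides
`X ^ ℓ ^ 2 - c`).  Every `x ∈ K(C)` is `aeval C f` for some `f` (`IntermediateField.adjoin_simple_toSubalgebra_of_integral`,
`Algebra.adjoin_singleton_eq_range_aeval`), and `f` may be replaced by `f %ₘ minpoly K C`, of degree `< ℓ ^ 2`.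
`pol` with `ζ1`.
-/

namespace Pool.Agent.PSG

open Pool.Agent.PSF

universe u v

variable {ℓ : ℕ} {K L : Type u} [Field K] [Field L] [Algebra K L] {V : Type v} [AddCommGroup V]

theorem sec {p : ℕ} (hp : p.Prime) [CharP K p] (hℓ : ℓ.Prime) (hs : Spec ℓ K)
    (hK : (ℓ : K) ≠ 0) {ζ : K} (hζ : IsPrimitiveRoot ζ (ℓ ^ 2))
    (hroot : ∀ c : K, ∃ x : L, x ^ ℓ = algebraMap K L c) {S : SymSys ℓ L V} (h : Kills K S)
    {z w : L} (hz : z ∈ IntermediateField.adjoin K {C : L | InB K L (C ^ ℓ ^ 2)})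
    (hw : w ∈ IntermediateField.adjoin K {C : L | InB K L (C ^ ℓ ^ 2)}) (hz0 : z ≠ 0)
    (hw0 : w ≠ 0) : S.β z w = 0 := by
  have hζ1 : IsPrimitiveRoot (ζ ^ ℓ) ℓ := hζ.pow (pow_pos hℓ.pos 2) (pow_two ℓ)
  refine reductionM hℓ hK (Or.inr (Or.inr hs)) hζ1 hζ S ?_ hz hw hz0 hw0
  intro C hC x hx y hy hx0 hy0
  have hint : IsIntegral K C := by
    obtain ⟨c, hc⟩ := hC
    refine IsIntegral.of_pow (pow_pos hℓ.pos 2) ?_
    rw [hc]
    exact isIntegral_algebraMap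
  have hdeg : (minpoly K C).natDegree ≤ ℓ ^ 2 := by
    obtain ⟨c, hc⟩ := hC
    have h1 : minpoly K C ∣ Polynomial.X ^ ℓ ^ 2 - Polynomial.C c := by
      apply minpoly.dvd
      rw [map_sub, map_pow, Polynomial.aeval_X, Polynomial.aeval_C, hc, sub_self]
    have h2 := Polynomial.natDegree_le_of_dvd h1
      (Polynomial.X_pow_sub_C_ne_zero (pow_pos hℓ.pos 2) c)
    rwa [Polynomial.natDegree_X_pow_sub_C] at h2
  have key : ∀ x ∈ IntermediateField.adjoin K {C}, ∃ f : Polynomial K, f.natDegree < ℓ ^ 2 ∧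
      Polynomial.aeval C f = x := by
    intro x hx
    have h1 : x ∈ (IntermediateField.adjoin K {C}).toSubalgebra := hx
    rw [IntermediateField.adjoin_simple_toSubalgebra_of_isAlgebraic hint.isAlgebraic,
      Algebra.adjoin_singleton_eq_range_aeval] at h1
    obtain ⟨f, hf⟩ := h1
    refine ⟨f %ₘ minpoly K C, ?_, ?_⟩
    · refine lt_of_lt_of_le (Polynomial.natDegree_modByMonic_lt f (minpoly.monic hint) ?_) hdeg
      exact minpoly.ne_one K C
    · rw [Polynomial.aeval_modByMonic_eq_self_of_root (minpoly.aeval K C)]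
      exact hf
  obtain ⟨f, hf, rfl⟩ := key x hx
  obtain ⟨g, hg, rfl⟩ := key y hy
  exact pol hp hℓ hs hK hζ1 hroot h ⟨2, hC⟩ hf hg hx0 hy0

end Pool.Agent.PSG
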