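import Pool.Agent.PSG.Frob

/-!
# PSG-Tri: the span of three radicals is isotropic in positive characteristic
-/

namespace Pool.Agent.PSG

open Pool.Agent.PSF

universe u v

variable {ℓ : ℕ} {K L : Type u} [Field K] [Field L] [Algebra K L] {V : Type v} [AddCommGroup V]

/-- Four vectors in a space spanned by three vectors are dependent. -/
theorem dep4 {W : Type*} [AddCommGroup W] [Module K W] {u v w x₁ x₂ x₃ x₄ : W}
    (h₁ : x₁ ∈ Submodule.span K {u, v, w}) (h₂ : x₂ ∈ Submodule.span K {u, v, w})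
    (h₃ : x₃ ∈ Submodule.span K {u, v, w}) (h₄ : x₄ ∈ Submodule.span K {u, v, w}) :
    ∃ a b c d : K, (a ≠ 0 ∨ b ≠ 0 ∨ c ≠ 0 ∨ d ≠ 0) ∧
      a • x₁ + b • x₂ + c • x₃ + d • x₄ = 0 := by
  set M := Submodule.span K ({u, v, w} : Set W) with hM
  have hfin : Module.Finite K M := by
    apply Module.Finite.span_of_finite
    exact (Set.finite_singleton w).insert v |>.insert u
  have hrank : Module.finrank K M ≤ 3 := by
    classical
    have h := finrank_span_finset_le_card (R := K) ({u, v, w} : Finset W)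
    have e : ((({u, v, w} : Finset W)) : Set W) = {u, v, w} := by
      push_cast
      rfl
    rw [Set.finrank, e] at h
    exact h.trans Finset.card_le_three
  have hdep : ¬ LinearIndependent K ![(⟨x₁, h₁⟩ : M), ⟨x₂, h₂⟩, ⟨x₃, h₃⟩, ⟨x₄, h₄⟩] := by
    intro hl
    have := hl.fintype_card_le_finrank
    simp at this
    omega
  rw [Fintype.linearIndependent_iff] at hdep
  push Not at hdep
  obtain ⟨g, hg, i, hi⟩ := hdep
  refine ⟨g 0, g 1, g 2, g 3, ?_, ?_⟩
  · fin_cases i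
    · exact Or.inl hi
    · exact Or.inr (Or.inl hi)
    · exact Or.inr (Or.inr (Or.inl hi))
    · exact Or.inr (Or.inr (Or.inr hi))
  · have h5 := congrArg (fun z : M => (z : W)) hg
    simpa [Fin.sum_univ_four] using h5

/-- The span of three radicals is stable under `x ↦ x ^ Q`. -/
theorem span_frob {p : ℕ} [Fact p.Prime] [CharP L p] {j : ℕ} {u v w : L} {a b c : K}
    (hu : u ^ p ^ j = algebraMap K L a * u) (hv : v ^ p ^ j = algebraMap K L b * v)
    (hw : w ^ p ^ j = algebraMap K L c * w) {x : L} (hx : x ∈ Submodule.span K {u, v, w}) :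
    x ^ p ^ j ∈ Submodule.span K {u, v, w} := by
  rw [Submodule.mem_span_triple] at hx ⊢
  obtain ⟨r, s, t, rfl⟩ := hx
  refine ⟨r ^ p ^ j * a, s ^ p ^ j * b, t ^ p ^ j * c, ?_⟩
  rw [add_pow_char_pow, add_pow_char_pow]
  simp only [Algebra.smul_def, mul_pow, map_mul, map_pow, hu, hv, hw]
  ring

theorem tri {p : ℕ} (hp : p.Prime) (hℓ : ℓ.Prime) [CharP K p] (hK : (ℓ : K) ≠ 0)
    {S : SymSys ℓ L V} (h : Kills K S) {u v w : L} (hu : IsRadl ℓ K L u) (hv : IsRadl ℓ K L v)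
    (hw : IsRadl ℓ K L w) {x y : L} (hx : x ∈ Submodule.span K {u, v, w})
    (hy : y ∈ Submodule.span K {u, v, w}) (hx0 : x ≠ 0) (hy0 : y ≠ 0) : S.β x y = 0 := by
  have : Fact p.Prime := ⟨hp⟩
  have : CharP L p := charP_of_injective_algebraMap (algebraMap K L).injective p
  obtain ⟨n₁, h1⟩ := hu
  obtain ⟨n₂, h2⟩ := hv
  obtain ⟨n₃, h3⟩ := hw
  obtain ⟨n, e1, e2, e3⟩ : ∃ n, n₁ ≤ n ∧ n₂ ≤ n ∧ n₃ ≤ n :=
    ⟨n₁ + n₂ + n₃, by omega, by omega, by omega⟩
  obtain ⟨j, t, hj, hQ⟩ := exists_Q hp (coprime_of_natCast_ne_zero hp hℓ hK n)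
    (pow_ne_zero n hℓ.ne_zero)
  obtain ⟨a, ha⟩ := frob_radl (t := t) (InB_mul_exp h1 e1)
  obtain ⟨b, hb⟩ := frob_radl (t := t) (InB_mul_exp h2 e2)
  obtain ⟨c, hc⟩ := frob_radl (t := t) (InB_mul_exp h3 e3)
  rw [← hQ] at ha hb hc
  obtain ⟨r₁, r₂, r₃, r₄, hne, hr⟩ := dep4 hx hy (span_frob ha hb hc hx) (span_frob ha hb hc hy)
  refine key h (Nat.one_lt_pow hj.ne' hp.one_lt) hx0 hy0 (a := r₁) (b := r₂) (c := -r₃)
    (d := -r₄) ?_ ?_
  · simpa using hne
  · simp only [Algebra.smul_def] at hr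
    rw [map_neg, map_neg]
    linear_combination hr

end Pool.Agent.PSG
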